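import Mathlib

set_option autoImplicit false

/-!
Uniqueness of decoding of generic shuffle squares.
-/

namespace Pool.Agent.Q290.SSq

/-- number of `true` (enqueue) steps before time `t` -/
def cE (A : ℕ → Bool) : ℕ → ℕ
  | 0 => 0
  | t + 1 => cE A t + if A t then 1 else 0

/-- number of `false` (match) steps before time `t` -/
def cM (A : ℕ → Bool) : ℕ → ℕ
  | 0 => 0
  | t + 1 => cM A t + if A t then 0 else 1

theorem cE_succ_true {A : ℕ → Bool} {t : ℕ} (h : A t = true) : cE A (t + 1) = cE A t + 1 := by
  simp [cE, h]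

theorem cE_succ_false {A : ℕ → Bool} {t : ℕ} (h : A t = false) : cE A (t + 1) = cE A t := by
  simp [cE, h]

theorem cM_succ_true {A : ℕ → Bool} {t : ℕ} (h : A t = true) : cM A (t + 1) = cM A t := by
  simp [cM, h]

theorem cM_succ_false {A : ℕ → Bool} {t : ℕ} (h : A t = false) : cM A (t + 1) = cM A t + 1 := by
  simp [cM, h]

theorem cE_add_cM (A : ℕ → Bool) (t : ℕ) : cE A t + cM A t = t := by
  induction t with
  | zero => rfl
  | succ t ih =>
    rcases Bool.eq_false_or_eq_true (A t) with h | h
    · rw [cE_succ_true h, cM_succ_true h]; omega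
    · rw [cE_succ_false h, cM_succ_false h]; omega

theorem cE_mono {A : ℕ → Bool} : Monotone (cE A) := by
  apply monotone_nat_of_le_succ
  intro t
  simp [cE]

theorem cM_mono {A : ℕ → Bool} : Monotone (cM A) := by
  apply monotone_nat_of_le_succ
  intro t
  simp [cM]

/-- `A` is a (Dyck) path of semi-length `n`: enqueue/match steps, the queue is never negative and
empty at time `2n`. -/
structure Path (n : ℕ) (A : ℕ → Bool) : Prop where
  le : ∀ t ≤ 2 * n, cM A t ≤ cE A t
  endE : cE A (2 * n) = n

theorem Path.endM {n : ℕ} {A : ℕ → Bool} (h : Path n A) : cM A (2 * n) = n := by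
  have := cE_add_cM A (2 * n)
  have := h.endE
  omega

/-- the index of the letter written at time `t` -/
def idx (A : ℕ → Bool) (t : ℕ) : ℕ := if A t then cE A t else cM A t

theorem idx_true {A : ℕ → Bool} {t : ℕ} (h : A t = true) : idx A t = cE A t := by simp [idx, h]
theorem idx_false {A : ℕ → Bool} {t : ℕ} (h : A t = false) : idx A t = cM A t := by simp [idx, h]

/-- counts along a run of `true` -/
theorem run_true {A : ℕ → Bool} {t u : ℕ} (htu : t ≤ u) (h : ∀ w, t ≤ w → w < u → A w = true) :
    cE A u = cE A t + (u - t) ∧ cM A u = cM A t := by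
  induction u, htu using Nat.le_induction with
  | base => simp
  | succ u htu ih =>
    obtain ⟨h1, h2⟩ := ih fun w hw1 hw2 => h w hw1 (by omega)
    have h3 := h u htu (by omega)
    rw [cE_succ_true h3, cM_succ_true h3, h1, h2]
    exact ⟨by omega, rfl⟩

/-- the first match step after `t` -/
theorem first_false {n : ℕ} {A : ℕ → Bool} (hA : Path n A) {t : ℕ} (h1 : cM A t < n) :
    ∃ u, t ≤ u ∧ u < 2 * n ∧ A u = false ∧ ∀ w, t ≤ w → w < u → A w = true := by
  classical
  have hex : ∃ u, t ≤ u ∧ u < 2 * n ∧ A u = false := by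
    by_contra hcon
    push Not at hcon
    have h2 : t ≤ 2 * n := by
      by_contra h
      have := cM_mono (A := A) (show 2 * n ≤ t by omega)
      rw [hA.endM] at this
      omega
    have h3 := run_true (A := A) h2 (fun w hw1 hw2 => by
      have := hcon w hw1 hw2
      simpa using this)
    have := hA.endM
    omega
  refine ⟨Nat.find hex, (Nat.find_spec hex).1, (Nat.find_spec hex).2.1, (Nat.find_spec hex).2.2, ?_⟩
  intro w hw1 hw2
  have := Nat.find_min hex hw2
  have h3 := (Nat.find_spec hex).2.1
  simp only [not_and] at this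
  have h4 := this hw1 (by omega)
  simpa using h4

/-- dequeue times -/
theorem exists_deq {n : ℕ} {A : ℕ → Bool} (hA : Path n A) {i : ℕ} (hi : i < n) :
    ∃ v, v < 2 * n ∧ A v = false ∧ cM A v = i := by
  induction i with
  | zero =>
    obtain ⟨u, h1, h2, h3, h4⟩ := first_false hA (t := 0) (by simpa [cM] using hi)
    refine ⟨u, h2, h3, ?_⟩
    rw [(run_true h1 h4).2]
    rfl
  | succ i ih =>
    obtain ⟨v, hv1, hv2, hv3⟩ := ih (by omega)
    have h0 : cM A (v + 1) = i + 1 := by rw [cM_succ_false hv2, hv3]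
    obtain ⟨u, h1, h2, h3, h4⟩ := first_false hA (t := v + 1) (by omega)
    exact ⟨u, h2, h3, by rw [(run_true h1 h4).2, h0]⟩

theorem deq_lt {A : ℕ → Bool} {u v : ℕ} (_hu : A u = false) (h : cM A u < cM A v) : u < v := by
  by_contra hcon
  have := cM_mono (A := A) (not_lt.1 hcon)
  omega

theorem deq_unique {A : ℕ → Bool} {u v : ℕ} (hu : A u = false) (hv : A v = false)
    (h : cM A u = cM A v) : u = v := by
  rcases lt_trichotomy u v with h1 | h1 | h1
  · have := cM_mono (A := A) (show u + 1 ≤ v by omega)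
    rw [cM_succ_false hu] at this
    omega
  · exact h1
  · have := cM_mono (A := A) (show v + 1 ≤ u by omega)
    rw [cM_succ_false hv] at this
    omega

theorem enq_unique {A : ℕ → Bool} {u v : ℕ} (hu : A u = true) (hv : A v = true)
    (h : cE A u = cE A v) : u = v := by
  rcases lt_trichotomy u v with h1 | h1 | h1
  · have := cE_mono (A := A) (show u + 1 ≤ v by omega)
    rw [cE_succ_true hu] at this
    omega
  · exact h1
  · have := cE_mono (A := A) (show v + 1 ≤ u by omega)
    rw [cE_succ_true hv] at this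
    omega

/-- a letter is matched after it is enqueued -/
theorem enq_lt_deq {n : ℕ} {A : ℕ → Bool} (hA : Path n A) {u v : ℕ} (hv2 : v < 2 * n)
    (hu : A u = true) (hv : A v = false) (h : cE A u = cM A v) : u < v := by
  by_contra hcon
  have h1 : v < u := by
    rcases Nat.lt_or_ge v u with h1 | h1
    · exact h1
    · have : u = v := by omega
      subst this
      rw [hu] at hv
      exact absurd hv (by simp)
  have h2 := cE_mono (A := A) (show v + 1 ≤ u by omega)
  have h3 := hA.le (v + 1) (by omega)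
  rw [cM_succ_false hv] at h3
  omega

/-- no run of `R` consecutive enqueue steps -/
def NoRun (n R : ℕ) (A : ℕ → Bool) : Prop :=
  ∀ t, t + R ≤ 2 * n → ∃ u, t ≤ u ∧ u < t + R ∧ A u = false

theorem NoRun.count {n R : ℕ} {A : ℕ → Bool} (h : NoRun n R A) (t q : ℕ)
    (hq : t + q * R ≤ 2 * n) : cM A t + q ≤ cM A (t + q * R) := by
  induction q with
  | zero => simp
  | succ q ih =>
    have h1 : t + (q + 1) * R = (t + q * R) + R := by ring
    rw [h1] at hq ⊢
    have h2 := ih (by omega)
    obtain ⟨u, hu1, hu2, hu3⟩ := h (t + q * R) hq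
    have h3 := cM_mono (A := A) hu1
    have h4 := cM_mono (A := A) (show u + 1 ≤ t + q * R + R by omega)
    rw [cM_succ_false hu3] at h4
    omega

/-- the letter of index `i` is matched soon -/
theorem NoRun.deq_bound {n R : ℕ} {A : ℕ → Bool} (h : NoRun n R A) {t v : ℕ}
    (hv : v < 2 * n) (q : ℕ) (hq : cM A v < cM A t + q) : v < t + q * R := by
  by_contra hcon
  have h1 := h.count t q (by omega)
  have h2 := cM_mono (A := A) (show t + q * R ≤ v by omega)
  omega

/-- closeness of a time to the enqueue time `τ` or the match time `T` -/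
def Near (r τ T z : ℕ) : Prop := (z ≤ τ + r ∧ τ ≤ z + r) ∨ (z ≤ T + r ∧ T ≤ z + r)

/-- two distinct coincidences near one letter -/
structure Bad {K : Type} (r n : ℕ) (A : ℕ → Bool) (x : ℕ → K) (τ T u₁ v₁ u₂ v₂ : ℕ) : Prop where
  hτ : τ < 2 * n
  hT : T < 2 * n
  hu₁ : u₁ < 2 * n
  hv₁ : v₁ < 2 * n
  hu₂ : u₂ < 2 * n
  hv₂ : v₂ < 2 * n
  eτ : A τ = true
  eT : A T = false
  link : cM A T = cE A τ
  nu₁ : Near r τ T u₁
  nv₁ : Near r τ T v₁
  nu₂ : Near r τ T u₂
  nv₂ : Near r τ T v₂
  ne₁ : idx A u₁ ≠ idx A v₁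
  ne₂ : idx A u₂ ≠ idx A v₂
  ne : ¬ ((idx A u₁ = idx A u₂ ∧ idx A v₁ = idx A v₂) ∨ (idx A u₁ = idx A v₂ ∧ idx A v₁ = idx A u₂))
  co₁ : x (idx A u₁) = x (idx A v₁)
  co₂ : x (idx A u₂) = x (idx A v₂)

/-- no letter has two distinct coincidences nearby -/
def NotBad {K : Type} (r n : ℕ) (A : ℕ → Bool) (x : ℕ → K) : Prop :=
  ∀ τ T u₁ v₁ u₂ v₂, ¬ Bad r n A x τ T u₁ v₁ u₂ v₂

/-- canonical form: after a match step, no enqueue step with the same letter -/
def Canon {K : Type} (n : ℕ) (A : ℕ → Bool) (x : ℕ → K) : Prop :=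
  ∀ t, t + 1 < 2 * n → A t = false → A (t + 1) = true → x (idx A t) ≠ x (idx A (t + 1))

variable {K : Type}

/-- Local analysis of a divergence between two decodings when the queue has at least two letters. -/
theorem local_sync {n R r : ℕ} {A A' : ℕ → Bool} {x x' : ℕ → K} (hr : 2 * R ≤ r)
    (hA : Path n A) (_hA' : Path n A') (hrun : NoRun n R A) (hbad : NotBad r n A x)
    (hw : ∀ t < 2 * n, x (idx A t) = x' (idx A' t))
    {t : ℕ} (ht : t < 2 * n) (hE : cE A t = cE A' t) (hM : cM A t = cM A' t)
    (hAt : A t = true) (hA't : A' t = false)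
    (hx0 : x (cM A t) = x' (cM A t)) (hx1 : x (cM A t + 1) = x' (cM A t + 1))
    (hlen : cM A t + 1 < cE A t) :
    ∃ t', t < t' ∧ t' < t + R ∧ t' < 2 * n ∧ (∀ u, t ≤ u → u < t' → A u = true) ∧
      A t' = false ∧ ∀ u, t < u → u ≤ t' → A' u = true := by
  classical
  set α := cE A t with hα
  set β := cM A t with hβ
  have hαn : α < n := by
    have h1 := cE_mono (A := A) (show t + 1 ≤ 2 * n by omega)
    rw [cE_succ_true hAt, hA.endE] at h1
    omega
  obtain ⟨t', h1, h2, h3, h4⟩ := first_false hA (t := t) (by omega)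
  have htt' : t < t' := by
    rcases Nat.lt_or_ge t t' with h | h
    · exact h
    · have : t = t' := by omega
      rw [← this, hAt] at h3
      exact absurd h3 (by simp)
  have hR : t' < t + R := by
    by_contra hcon
    obtain ⟨u, hu1, hu2, hu3⟩ := hrun t (by omega)
    have := h4 u hu1 (by omega)
    rw [hu3] at this
    exact absurd this (by simp)
  have hcount : ∀ u, t ≤ u → u ≤ t' → cE A u = α + (u - t) ∧ cM A u = β :=
    fun u hu1 hu2 => run_true hu1 fun w hw1 hw2 => h4 w hw1 (by omega)
  refine ⟨t', htt', hR, h2, h4, h3, ?_⟩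
  by_contra hcon
  push Not at hcon
  -- first match step of `A'`
  obtain ⟨u, hu, humin⟩ : ∃ u, (t < u ∧ u ≤ t' ∧ A' u ≠ true) ∧
      ∀ w, w < u → ¬ (t < w ∧ w ≤ t' ∧ A' w ≠ true) :=
    ⟨Nat.find hcon, Nat.find_spec hcon, fun w hw => Nat.find_min hcon hw⟩
  obtain ⟨hu1, hu2, hu3⟩ := hu
  have hu3' : A' u = false := by simpa using hu3
  have hcM' : cM A' u = β + 1 := by
    have h5 := run_true (A := A') (t := t + 1) (u := u) (by omega) (fun w hw1 hw2 => by
      have := humin w hw2
      by_contra h
      exact this ⟨by omega, by omega, h⟩)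
    rw [h5.2, cM_succ_false hA't, ← hM]
  -- match times in `A`
  obtain ⟨v, hv1, hv2, hv3⟩ := exists_deq hA (i := β + 1) (by omega)
  obtain ⟨T, hT1, hT2, hT3⟩ := exists_deq hA (i := α) hαn
  have hβt' : cM A t' = β := (hcount t' (by omega) le_rfl).2
  have hvt' : t' < v := by
    apply deq_lt h3
    omega
  have hvR : v < t + 2 * R := hrun.deq_bound hv1 2 (by omega)
  have iu : idx A u ≠ β + 1 ∧ (idx A u = β ∨ α < idx A u) := by
    rcases Nat.lt_or_ge u t' with h | h
    · have h5 := h4 u (by omega) h
      rw [idx_true h5, (hcount u (by omega) (by omega)).1]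
      omega
    · have : u = t' := by omega
      rw [this, idx_false h3, hβt']
      omega
  have it : idx A t = α := idx_true hAt
  have it' : idx A t' = β := by rw [idx_false h3, hβt']
  have iv : idx A v = β + 1 := by rw [idx_false hv2, hv3]
  refine hbad t T t t' u v ⟨ht, hT1, ht, h2, by omega, hv1, hAt, hT2, hT3, ?_, ?_, ?_, ?_, ?_, ?_,
    ?_, ?_, ?_⟩
  · left; omega
  · left; omega
  · left; omega
  · left; omega
  · rw [it, it']; omega
  · rw [iv]; exact iu.1
  · rw [it, it', iv]; omega
  · rw [it']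
    have e1 := hw t ht
    rw [idx_false hA't, ← hM] at e1
    rw [e1, hx0]
  · rw [iv]
    have e1 := hw u (by omega)
    rw [idx_false hu3', hcM'] at e1
    rw [e1, hx1]

/-- Local analysis of a divergence when the queue has exactly one letter. -/
theorem local_sync_one {n R r : ℕ} {A A' : ℕ → Bool} {x x' : ℕ → K} (hr : 2 * R ≤ r)
    (hA : Path n A) (hA' : Path n A') (hrun : NoRun n R A) (hbad : NotBad r n A x)
    (hw : ∀ t < 2 * n, x (idx A t) = x' (idx A' t))
    {t : ℕ} (ht : t < 2 * n) (hE : cE A t = cE A' t) (hM : cM A t = cM A' t)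
    (hAt : A t = true) (hA't : A' t = false)
    (hx0 : x (cM A t) = x' (cM A t))
    (hlen : cM A t + 1 = cE A t) :
    ∃ t', t < t' ∧ t' < t + R ∧ t' < 2 * n ∧ (∀ u, t ≤ u → u < t' → A u = true) ∧
      A t' = false ∧ ∀ u, t < u → u ≤ t' → A' u = true := by
  classical
  set α := cE A t with hα
  set β := cM A t with hβ
  have hαn : α < n := by
    have h1 := cE_mono (A := A) (show t + 1 ≤ 2 * n by omega)
    rw [cE_succ_true hAt, hA.endE] at h1
    omega
  obtain ⟨t', h1, h2, h3, h4⟩ := first_false hA (t := t) (by omega)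
  have htt' : t < t' := by
    rcases Nat.lt_or_ge t t' with h | h
    · exact h
    · have : t = t' := by omega
      rw [← this, hAt] at h3
      exact absurd h3 (by simp)
  have hR : t' < t + R := by
    by_contra hcon
    obtain ⟨u, hu1, hu2, hu3⟩ := hrun t (by omega)
    have := h4 u hu1 (by omega)
    rw [hu3] at this
    exact absurd this (by simp)
  have hcount : ∀ u, t ≤ u → u ≤ t' → cE A u = α + (u - t) ∧ cM A u = β :=
    fun u hu1 hu2 => run_true hu1 fun w hw1 hw2 => h4 w hw1 (by omega)
  refine ⟨t', htt', hR, h2, h4, h3, ?_⟩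
  by_contra hcon
  push Not at hcon
  obtain ⟨u, hu, humin⟩ : ∃ u, (t < u ∧ u ≤ t' ∧ A' u ≠ true) ∧
      ∀ w, w < u → ¬ (t < w ∧ w ≤ t' ∧ A' w ≠ true) :=
    ⟨Nat.find hcon, Nat.find_spec hcon, fun w hw => Nat.find_min hcon hw⟩
  obtain ⟨hu1, hu2, hu3⟩ := hu
  have hu3' : A' u = false := by simpa using hu3
  have hrun' := run_true (A := A') (t := t + 1) (u := u) (by omega) (fun w hw1 hw2 => by
      have := humin w hw2
      by_contra h
      exact this ⟨by omega, by omega, h⟩)
  have hcM' : cM A' u = β + 1 := by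
    rw [hrun'.2, cM_succ_false hA't, ← hM]
  -- the queue of `A'` is empty at time `t + 1`, so `t + 1 < u`
  have hut : t + 1 < u := by
    by_contra hcon2
    have hu' : u = t + 1 := by omega
    have h5 := hA'.le (u + 1) (by omega)
    rw [cM_succ_false hu3', hcM', cE_succ_false hu3', hu', cE_succ_false hA't, ← hE] at h5
    omega
  have hA't1 : A' (t + 1) = true := by
    have := humin (t + 1) hut
    by_contra h
    exact this ⟨by omega, by omega, h⟩
  have hAt1 : A (t + 1) = true := h4 (t + 1) (by omega) (by omega)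
  obtain ⟨T, hT1, hT2, hT3⟩ := exists_deq hA (i := α) hαn
  have hβt' : cM A t' = β := (hcount t' (by omega) le_rfl).2
  have iu : idx A u = β ∨ α + 1 < idx A u := by
    rcases Nat.lt_or_ge u t' with h | h
    · have h5 := h4 u (by omega) h
      rw [idx_true h5, (hcount u (by omega) (by omega)).1]
      omega
    · have : u = t' := by omega
      rw [this, idx_false h3, hβt']
      omega
  have it : idx A t = α := idx_true hAt
  have it' : idx A t' = β := by rw [idx_false h3, hβt']
  have it1 : idx A (t + 1) = α + 1 := by rw [idx_true hAt1, cE_succ_true hAt]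
  refine hbad t T t t' u (t + 1) ⟨ht, hT1, ht, h2, by omega, by omega, hAt, hT2, hT3, ?_, ?_, ?_,
    ?_, ?_, ?_, ?_, ?_, ?_⟩
  · left; omega
  · left; omega
  · left; omega
  · left; omega
  · rw [it, it']; omega
  · rw [it1]; omega
  · rw [it, it', it1]; omega
  · rw [it']
    have e1 := hw t ht
    rw [idx_false hA't, ← hM] at e1
    rw [e1, hx0]
  · have e1 := hw u (by omega)
    rw [idx_false hu3', hcM'] at e1
    have e2 := hw (t + 1) (by omega)
    rw [idx_true hA't1, cE_succ_false hA't, ← hE, ← hlen] at e2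
    rw [e1, e2]

/-- synchronisation at time `t` -/
def Sync (A A' : ℕ → Bool) (t : ℕ) : Prop := cE A t = cE A' t ∧ cM A t = cM A' t

theorem Sync.symm {A A' : ℕ → Bool} {t : ℕ} (h : Sync A A' t) : Sync A' A t :=
  ⟨h.1.symm, h.2.symm⟩

theorem Sync.succ {A A' : ℕ → Bool} {t : ℕ} (h : Sync A A' t) (h' : A t = A' t) :
    Sync A A' (t + 1) := by
  unfold Sync cE cM
  rw [h', h.1, h.2]
  exact ⟨rfl, rfl⟩

/-- after a resolved divergence the decodings are synchronised again -/
theorem sync_after {A A' : ℕ → Bool} {t t' : ℕ} (h : Sync A A' t) (htt' : t < t')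
    (h1 : ∀ u, t ≤ u → u < t' → A u = true) (h2 : A t' = false) (h3 : A' t = false)
    (h4 : ∀ u, t < u → u ≤ t' → A' u = true) : Sync A A' (t' + 1) := by
  have e1 := run_true htt'.le h1
  have e2 := run_true (A := A') (t := t + 1) (u := t' + 1) (by omega)
    (fun w hw1 hw2 => h4 w (by omega) (by omega))
  unfold Sync
  rw [cE_succ_false h2, cM_succ_false h2, e1.1, e1.2, e2.1, e2.2, cE_succ_false h3,
    cM_succ_false h3, h.1, h.2]
  exact ⟨by omega, rfl⟩

/-- there is a synchronisation time shortly before the match time `T` of the index `a₀` -/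
theorem exists_sync {n R r : ℕ} {A A' : ℕ → Bool} {x x' : ℕ → K} (hr : 2 * R ≤ r)
    (hA : Path n A) (hA' : Path n A') (hrun : NoRun n R A) (hrun' : NoRun n R A')
    (hbad : NotBad r n A x) (hbad' : NotBad r n A' x')
    (hw : ∀ t < 2 * n, x (idx A t) = x' (idx A' t)) {a₀ T t₀ : ℕ}
    (hagree : ∀ i < a₀, x i = x' i) (hT : T < 2 * n) (_hAT : A T = false) (hcT : cM A T = a₀)
    (hlarge : ∀ t, t₀ ≤ t → a₀ ≤ cE A t) :
    ∀ d t, T - t = d → t₀ ≤ t → t ≤ T → Sync A A' t →
      ∃ σ, t ≤ σ ∧ σ ≤ T ∧ T ≤ σ + 2 * R ∧ Sync A A' σ := by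
  intro d
  induction d using Nat.strong_induction_on with
  | _ d ih =>
    intro t hd ht0 htT hs
    by_cases hb : cM A t + 2 ≤ a₀
    · have htT' : t < T := by
        rcases Nat.lt_or_ge t T with h | h
        · exact h
        · have : t = T := by omega
          rw [this] at hb
          omega
      by_cases heq : A t = A' t
      · obtain ⟨σ, h1, h2, h3, h4⟩ := ih (T - (t + 1)) (by omega) (t + 1) rfl (by omega) (by omega)
          (hs.succ heq)
        exact ⟨σ, by omega, h2, h3, h4⟩
      · -- a divergence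
        have hx0 : x (cM A t) = x' (cM A t) := hagree _ (by omega)
        have hx1 : x (cM A t + 1) = x' (cM A t + 1) := hagree _ (by omega)
        have hlen : cM A t + 1 < cE A t := by
          have := hlarge t ht0
          omega
        have key : ∃ t', t < t' ∧ t' < t + R ∧ t' < 2 * n ∧ Sync A A' (t' + 1) := by
          rcases Bool.eq_false_or_eq_true (A t) with hAt | hAt
          · have hA't : A' t = false := by
              rcases Bool.eq_false_or_eq_true (A' t) with h | h
              · exact absurd (hAt.trans h.symm) heq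
              · exact h
            obtain ⟨t', h1, h2, h3, h4, h5, h6⟩ := local_sync hr hA hA' hrun hbad hw
              (by omega) hs.1 hs.2 hAt hA't hx0 hx1 hlen
            exact ⟨t', h1, h2, h3, sync_after hs h1 h4 h5 hA't h6⟩
          · have hA't : A' t = true := by
              rcases Bool.eq_false_or_eq_true (A' t) with h | h
              · exact h
              · exact absurd (hAt.trans h.symm) heq
            obtain ⟨t', h1, h2, h3, h4, h5, h6⟩ := local_sync hr hA' hA hrun' hbad'
              (fun t ht => (hw t ht).symm) (by omega) hs.1.symm hs.2.symm hA't hAt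
              (by rw [← hs.2]; exact hx0.symm) (by rw [← hs.2]; exact hx1.symm)
              (by rw [← hs.1, ← hs.2]; exact hlen)
            exact ⟨t', h1, h2, h3, (sync_after hs.symm h1 h4 h5 hAt h6).symm⟩
        obtain ⟨t', h1, h2, h3, h4⟩ := key
        rcases Nat.lt_or_ge T (t' + 1) with h5 | h5
        · exact ⟨t, le_rfl, htT, by omega, hs⟩
        · obtain ⟨σ, g1, g2, g3, g4⟩ := ih (T - (t' + 1)) (by omega) (t' + 1) rfl (by omega) h5 h4
          exact ⟨σ, by omega, g2, g3, g4⟩
    · refine ⟨t, le_rfl, htT, ?_, hs⟩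
      have := hrun.deq_bound hT 2 (show cM A T < cM A t + 2 by omega)
      omega

theorem main_aux {n R r : ℕ} {A A' : ℕ → Bool} {x x' : ℕ → K} (hR : 1 ≤ R) (hr : 4 * R * R ≤ r)
    (hA : Path n A) (hA' : Path n A') (hrun : NoRun n R A) (hrun' : NoRun n R A')
    (hbad : NotBad r n A x) (hbad' : NotBad r n A' x') (_hcan : Canon n A x)
    (hcan' : Canon n A' x')
    (hw : ∀ t < 2 * n, x (idx A t) = x' (idx A' t)) {t : ℕ} (ht : t < 2 * n)
    (hprev : ∀ u < t, A u = A' u) (hAt : A t = true) (hA't : A' t = false) : False := by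
  classical
  have hr2 : 2 * R ≤ r := by
    have : 4 * R * 1 ≤ 4 * R * R := Nat.mul_le_mul_left _ hR
    omega
  have hsync : ∀ u ≤ t, Sync A A' u := by
    intro u
    induction u with
    | zero => intro _; exact ⟨rfl, rfl⟩
    | succ u ih => intro hu; exact (ih (by omega)).succ (hprev u (by omega))
  have hs := hsync t le_rfl
  set a₀ := cE A t with ha₀
  set β := cM A t with hβ
  -- agreement of the letters enqueued before `t`
  have hagree : ∀ i < a₀, x i = x' i := by
    intro i hi
    -- find the enqueue time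
    have hex : ∀ u ≤ t, ∀ i < cE A u, ∃ w < u, A w = true ∧ cE A w = i := by
      intro u
      induction u with
      | zero => intro _ i hi; exact absurd hi (Nat.not_lt_zero _)
      | succ u ih =>
        intro hu i hi
        rcases Bool.eq_false_or_eq_true (A u) with h | h
        · rw [cE_succ_true h] at hi
          rcases Nat.lt_or_ge i (cE A u) with h1 | h1
          · obtain ⟨w, g1, g2, g3⟩ := ih (by omega) i h1
            exact ⟨w, by omega, g2, g3⟩
          · exact ⟨u, by omega, h, by omega⟩
        · rw [cE_succ_false h] at hi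
          obtain ⟨w, g1, g2, g3⟩ := ih (by omega) i hi
          exact ⟨w, by omega, g2, g3⟩
    obtain ⟨w, g1, g2, g3⟩ := hex t le_rfl i hi
    have e1 := hw w (by omega)
    have g2' : A' w = true := by rw [← hprev w g1]; exact g2
    rw [idx_true g2, idx_true g2', ← (hsync w g1.le).1, g3] at e1
    exact e1
  have hβa : β < a₀ := by
    have h1 := hA'.le (t + 1) (by omega)
    rw [cM_succ_false hA't, cE_succ_false hA't, ← hs.1, ← hs.2] at h1
    omega
  have hx0 : x β = x' β := hagree _ hβa
  -- resolve the first divergence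
  obtain ⟨t', h1, h2, h3, h4, h5, h6⟩ : ∃ t', t < t' ∧ t' < t + R ∧ t' < 2 * n ∧
      (∀ u, t ≤ u → u < t' → A u = true) ∧ A t' = false ∧
      ∀ u, t < u → u ≤ t' → A' u = true := by
    rcases Nat.lt_or_ge (β + 1) a₀ with h | h
    · exact local_sync hr2 hA hA' hrun hbad hw ht hs.1 hs.2 hAt hA't hx0 (hagree _ h) h
    · exact local_sync_one hr2 hA hA' hrun hbad hw ht hs.1 hs.2 hAt hA't hx0 (by omega)
  have hs' := sync_after hs h1 h4 h5 hA't h6
  have hcE : ∀ u, t ≤ u → u ≤ t' → cE A u = a₀ + (u - t) ∧ cM A u = β :=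
    fun u hu1 hu2 => run_true hu1 fun w hw1 hw2 => h4 w hw1 (by omega)
  have hcE' : ∀ u, t < u → u ≤ t' + 1 → cE A' u = a₀ + (u - t - 1) ∧ cM A' u = β + 1 := by
    intro u hu1 hu2
    have := run_true (A := A') (t := t + 1) (u := u) (by omega)
      (fun w hw1 hw2 => h6 w (by omega) (by omega))
    rw [this.1, this.2, cE_succ_false hA't, cM_succ_false hA't, ← hs.1, ← hs.2]
    exact ⟨by omega, rfl⟩
  have it : idx A t = a₀ := idx_true hAt
  have it' : idx A t' = β := by rw [idx_false h5, (hcE t' h1.le le_rfl).2]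
  have ct : x a₀ = x β := by
    have e1 := hw t ht
    rw [it, idx_false hA't, ← hs.2] at e1
    rw [e1, hx0]
  -- the canonical form forces `t + 1 < t'`
  have hj : t + 1 < t' := by
    by_contra hcon
    have ht' : t' = t + 1 := by omega
    have hA't1 : A' (t + 1) = true := h6 (t + 1) (by omega) (by omega)
    apply hcan' t (by omega) hA't hA't1
    have e1 := hw t ht
    have e2 := hw t' h3
    rw [it] at e1
    rw [it'] at e2
    rw [← ht', ← e2, ← e1, ct]
  -- match times
  have ha₀n : a₀ < n := by
    have g1 := cE_mono (A := A) (show t + 1 ≤ 2 * n by omega)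
    rw [cE_succ_true hAt, hA.endE] at g1
    omega
  obtain ⟨T, hT1, hT2, hT3⟩ := exists_deq hA (i := a₀) ha₀n
  have ht'T : t' < T := by
    apply deq_lt h5
    rw [(hcE t' h1.le le_rfl).2, hT3]
    exact hβa
  obtain ⟨σ, hσ1, hσ2, hσ3, hσ4⟩ := exists_sync hr2 hA hA' hrun hrun' hbad hbad' hw
    (a₀ := a₀) (T := T) (t₀ := t) hagree hT1 hT2 hT3 (fun u hu => cE_mono hu)
    (T - (t' + 1)) (t' + 1) rfl (by omega) (by omega) hs'
  -- the enqueued index of `A'` at time `t'` is `a₀ + j`
  set j := t' - t - 1 with hjdef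
  have hj1 : 1 ≤ j := by omega
  have hjR : j + 1 ≤ R := by omega
  have hA't' : A' t' = true := h6 t' h1 le_rfl
  have it'' : idx A' t' = a₀ + j := by
    rw [idx_true hA't', (hcE' t' h1 (by omega)).1]
  have hA't1 : A' (t + 1) = true := h6 (t + 1) (by omega) (by omega)
  have it1' : idx A' (t + 1) = a₀ := by
    rw [idx_true hA't1, (hcE' (t + 1) (by omega) (by omega)).1]
    omega
  have hAt1 : A (t + 1) = true := h4 (t + 1) (by omega) hj
  have it1 : idx A (t + 1) = a₀ + 1 := by
    rw [idx_true hAt1, cE_succ_true hAt]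
  have hajn : a₀ + j < n := by
    have g1 := cE_mono (A := A') (show t' + 1 ≤ 2 * n by omega)
    rw [cE_succ_true hA't', hA'.endE, (hcE' t' h1 (by omega)).1] at g1
    omega
  obtain ⟨T', hT'1, hT'2, hT'3⟩ := exists_deq hA' (i := a₀ + j) hajn
  obtain ⟨V, hV1, hV2, hV3⟩ := exists_deq hA' (i := a₀) ha₀n
  have hσM : cM A σ ≤ a₀ := by
    rw [← hT3]; exact cM_mono hσ2
  have hσM2 : a₀ ≤ cM A σ + 2 * R := by
    have g1 := cE_add_cM A T
    have g2 := cE_add_cM A σ
    have g3 := cE_mono (A := A) hσ2
    omega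
  have hσV : σ ≤ V := by
    by_contra hcon
    have g1 := cM_mono (A := A') (show V + 1 ≤ σ by omega)
    rw [cM_succ_false hV2, hV3, ← hσ4.2] at g1
    omega
  have hVT' : V < T' := by
    apply deq_lt hV2
    omega
  have hT'b : T' < σ + (2 * R + j + 1) * R := by
    apply hrun'.deq_bound hT'1
    rw [hT'3, ← hσ4.2]
    omega
  have hb3 : (2 * R + j + 1) * R ≤ 3 * R * R := by
    apply Nat.mul_le_mul_right
    omega
  have hb4 : 3 * R * R + R * R = 4 * R * R := by ring
  have hb5 : R * 1 ≤ R * R := Nat.mul_le_mul_left _ hR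
  have htV : t + 1 < V := by
    apply enq_lt_deq hA' hV1 hA't1 hV2
    rw [(hcE' (t + 1) (by omega) (by omega)).1, hV3]
    omega
  have ht'T' : t' < T' := by
    apply enq_lt_deq hA' hT'1 hA't' hT'2
    rw [(hcE' t' h1 (by omega)).1, hT'3]
  -- letters
  have cT' : x (idx A T') = x β := by
    have e1 := hw T' hT'1
    have e2 := hw t' h3
    rw [idx_false hT'2, hT'3] at e1
    rw [it'', it'] at e2
    rw [e1, ← e2]
  have cV : x (idx A V) = x (a₀ + 1) := by
    have e1 := hw V hV1
    have e2 := hw (t + 1) (by omega)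
    rw [idx_false hV2, hV3] at e1
    rw [it1', it1] at e2
    rw [e1, ← e2]
  by_cases hTT : T' = T
  · -- second coincidence at `V`
    have iV : idx A V ≠ a₀ + 1 := by
      intro h
      rcases Bool.eq_false_or_eq_true (A V) with g | g
      · rw [idx_true g] at h
        have := enq_unique g hAt1 (by rw [h, cE_succ_true hAt])
        omega
      · rw [idx_false g] at h
        have g1 : T < V := by
          apply deq_lt hT2
          omega
        omega
    refine hbad t T t t' V (t + 1) ⟨ht, hT1, ht, h3, hV1, by omega, hAt, hT2, hT3, ?_, ?_, ?_, ?_,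
      ?_, ?_, ?_, ?_, ?_⟩
    · left; omega
    · left; omega
    · right; omega
    · left; omega
    · rw [it, it']; omega
    · rw [it1]; exact iV
    · rw [it, it', it1]; omega
    · rw [it, it', ct]
    · rw [it1, cV]
  · have iT' : idx A T' ≠ a₀ := by
      intro h
      rcases Bool.eq_false_or_eq_true (A T') with g | g
      · rw [idx_true g] at h
        have := enq_unique g hAt h
        omega
      · rw [idx_false g] at h
        exact hTT (deq_unique g hT2 (by rw [h, hT3]))
    have iT'' : idx A T' ≠ β := by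
      intro h
      rcases Bool.eq_false_or_eq_true (A T') with g | g
      · rw [idx_true g] at h
        have := cE_mono (A := A) (show t ≤ T' by omega)
        omega
      · rw [idx_false g] at h
        have := deq_unique g h5 (by rw [h, (hcE t' h1.le le_rfl).2])
        omega
    refine hbad t T t t' T' t ⟨ht, hT1, ht, h3, hT'1, ht, hAt, hT2, hT3, ?_, ?_, ?_, ?_,
      ?_, ?_, ?_, ?_, ?_⟩
    · left; omega
    · left; omega
    · right; omega
    · left; omega
    · rw [it, it']; omega
    · rw [it]; exact iT'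
    · rw [it, it']; omega
    · rw [it, it', ct]
    · rw [it, ct, cT']

/-- **Unique decoding.** -/
theorem unique_decoding {n R r : ℕ} {A A' : ℕ → Bool} {x x' : ℕ → K} (hR : 1 ≤ R)
    (hr : 4 * R * R ≤ r)
    (hA : Path n A) (hA' : Path n A') (hrun : NoRun n R A) (hrun' : NoRun n R A')
    (hbad : NotBad r n A x) (hbad' : NotBad r n A' x') (hcan : Canon n A x)
    (hcan' : Canon n A' x')
    (hw : ∀ t < 2 * n, x (idx A t) = x' (idx A' t)) : ∀ t < 2 * n, A t = A' t := by
  intro t
  induction t using Nat.strong_induction_on with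
  | _ t ih =>
    intro ht
    by_contra hne
    have hprev : ∀ u < t, A u = A' u := fun u hu => ih u hu (by omega)
    rcases Bool.eq_false_or_eq_true (A t) with hAt | hAt
    · have hA't : A' t = false := by
        rcases Bool.eq_false_or_eq_true (A' t) with h | h
        · exact absurd (hAt.trans h.symm) hne
        · exact h
      exact main_aux hR hr hA hA' hrun hrun' hbad hbad' hcan hcan' hw ht hprev hAt hA't
    · have hA't : A' t = true := by
        rcases Bool.eq_false_or_eq_true (A' t) with h | h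
        · exact h
        · exact absurd (hAt.trans h.symm) hne
      exact main_aux hR hr hA' hA hrun' hrun hbad' hbad hcan' hcan (fun t ht => (hw t ht).symm) ht
        (fun u hu => (hprev u hu).symm) hA't hAt

end Pool.Agent.Q290.SSq
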