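import Mathlib
import Pool.Agent.Q290.SSq.Inj

set_option autoImplicit false

/-!
Counting words with sequential constraints.
-/

namespace Pool.Agent.Q290.SSq

open Finset

/-- extension of a finite word to `ℕ` -/
def ext {n k : ℕ} [NeZero k] (x : Fin n → Fin k) : ℕ → Fin k :=
  fun i => if h : i < n then x ⟨i, h⟩ else 0

theorem ext_lt {n k : ℕ} [NeZero k] (x : Fin n → Fin k) {i : ℕ} (h : i < n) :
    ext x i = x ⟨i, h⟩ := by simp [ext, h]

section seq

variable {k : ℕ} [NeZero k] (allow : ℕ → (ℕ → Fin k) → Finset (Fin k))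

/-- words of length `n` such that each letter is allowed given the previous ones -/
def good (n : ℕ) : Finset (Fin n → Fin k) :=
  univ.filter fun x => ∀ j < n, ext x j ∈ allow j (ext x)

variable {allow}

theorem ext_snoc_lt {n : ℕ} (x : Fin n → Fin k) (c : Fin k) {i : ℕ} (h : i < n) :
    ext (Fin.snoc (α := fun _ => Fin k) x c) i = ext x i := by
  rw [ext_lt _ (by omega : i < n + 1), ext_lt _ h]
  have : (⟨i, by omega⟩ : Fin (n + 1)) = Fin.castSucc ⟨i, h⟩ := rfl
  rw [this, Fin.snoc_castSucc]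

theorem ext_snoc_last {n : ℕ} (x : Fin n → Fin k) (c : Fin k) :
    ext (Fin.snoc (α := fun _ => Fin k) x c) n = c := by
  rw [ext_lt _ (Nat.lt_succ_self n)]
  have : (⟨n, Nat.lt_succ_self n⟩ : Fin (n + 1)) = Fin.last n := rfl
  rw [this, Fin.snoc_last]

theorem good_succ (hloc : ∀ j y y', (∀ i < j, y i = y' i) → allow j y = allow j y') (n : ℕ) :
    (good allow (n + 1)).card = ∑ x ∈ good allow n, (allow n (ext x)).card := by
  rw [← Finset.card_sigma]
  symm
  refine Finset.card_bij (fun p _ => Fin.snoc (α := fun _ => Fin k) p.1 p.2) ?_ ?_ ?_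
  · rintro ⟨x, c⟩ hp
    rw [mem_sigma] at hp
    obtain ⟨h1, h2⟩ := hp
    simp only at h1 h2
    rw [good, mem_filter] at h1 ⊢
    refine ⟨mem_univ _, fun j hj => ?_⟩
    rcases Nat.lt_or_ge j n with h | h
    · rw [ext_snoc_lt x c h, hloc j _ (ext x) fun i hi => ext_snoc_lt x c (by omega)]
      exact h1.2 j h
    · have : j = n := by omega
      subst this
      rw [ext_snoc_last x c, hloc j _ (ext x) fun i hi => ext_snoc_lt x c (by omega)]
      exact h2
  · rintro ⟨x, c⟩ _ ⟨x', c'⟩ _ h
    simp only at h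
    have h1 := congrArg (fun f : Fin (n + 1) → Fin k => f (Fin.last n)) h
    simp only [Fin.snoc_last] at h1
    have h2 : x = x' := by
      funext i
      have := congrArg (fun f : Fin (n + 1) → Fin k => f (Fin.castSucc i)) h
      simpa only [Fin.snoc_castSucc] using this
    rw [h1, h2]
  · intro y hy
    rw [good, mem_filter] at hy
    have hsn : Fin.snoc (α := fun _ => Fin k) (Fin.init y) (y (Fin.last n)) = y :=
      Fin.snoc_init_self y
    have hext : ∀ i < n, ext y i = ext (Fin.init y : Fin n → Fin k) i := by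
      intro i hi
      conv_lhs => rw [← hsn]
      exact ext_snoc_lt _ _ hi
    refine ⟨⟨Fin.init y, y (Fin.last n)⟩, ?_, hsn⟩
    rw [mem_sigma]
    simp only
    rw [good, mem_filter]
    refine ⟨⟨mem_univ _, fun j hj => ?_⟩, ?_⟩
    · have := hy.2 j (by omega)
      rw [hext j hj, hloc j _ (ext (Fin.init y : Fin n → Fin k))
        fun i hi => hext i (by omega)] at this
      exact this
    · have := hy.2 n (Nat.lt_succ_self n)
      rw [hloc n _ (ext (Fin.init y : Fin n → Fin k)) fun i hi => hext i hi,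
        ext_lt _ (Nat.lt_succ_self n)] at this
      exact this

theorem good_le (hloc : ∀ j y y', (∀ i < j, y i = y' i) → allow j y = allow j y') (c : ℕ → ℕ)
    (hc : ∀ j y, (allow j y).card ≤ c j) (n : ℕ) : (good allow n).card ≤ ∏ j ∈ range n, c j := by
  induction n with
  | zero =>
    rw [prod_range_zero]
    refine (card_le_univ _).trans ?_
    simp
  | succ n ih =>
    rw [good_succ hloc, prod_range_succ]
    calc ∑ x ∈ good allow n, (allow n (ext x)).card ≤ ∑ x ∈ good allow n, c n :=
          sum_le_sum fun x _ => hc n _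
      _ = (good allow n).card * c n := by rw [sum_const, smul_eq_mul]
      _ ≤ _ := Nat.mul_le_mul_right _ ih

theorem le_good (hloc : ∀ j y y', (∀ i < j, y i = y' i) → allow j y = allow j y') (c : ℕ → ℕ)
    (hc : ∀ j y, c j ≤ (allow j y).card) (n : ℕ) : ∏ j ∈ range n, c j ≤ (good allow n).card := by
  induction n with
  | zero =>
    rw [prod_range_zero]
    apply card_pos.2
    exact ⟨fun i => i.elim0, mem_filter.2 ⟨mem_univ _, fun j hj => absurd hj (Nat.not_lt_zero _)⟩⟩
  | succ n ih =>
    rw [good_succ hloc, prod_range_succ]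
    calc _ ≤ (good allow n).card * c n := Nat.mul_le_mul_right _ ih
      _ = ∑ x ∈ good allow n, c n := by rw [sum_const, smul_eq_mul]
      _ ≤ ∑ x ∈ good allow n, (allow n (ext x)).card := sum_le_sum fun x _ => hc n _

end seq

/-! ### Canonical words -/

/-- the index `j` is enqueued right after the match step of the index `i` -/
def Con (n : ℕ) (A : ℕ → Bool) (j i : ℕ) : Prop :=
  ∃ t, t + 1 < 2 * n ∧ A t = false ∧ A (t + 1) = true ∧ cE A (t + 1) = j ∧ cM A t = i

theorem Con.unique {n : ℕ} {A : ℕ → Bool} {j i i' : ℕ} (h : Con n A j i) (h' : Con n A j i') :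
    i = i' := by
  obtain ⟨t, _, h2, h3, h4, h5⟩ := h
  obtain ⟨t', _, h2', h3', h4', h5'⟩ := h'
  have := enq_unique h3 h3' (by rw [h4, h4'])
  have : t = t' := by omega
  subst this
  rw [← h5, ← h5']

theorem Con.lt {n : ℕ} {A : ℕ → Bool} (hA : Path n A) {j i : ℕ} (h : Con n A j i) : i < j := by
  obtain ⟨t, h1, h2, h3, h4, h5⟩ := h
  have := hA.le (t + 1) (by omega)
  rw [cM_succ_false h2] at this
  omega

theorem canon_iff {K : Type} {n : ℕ} {A : ℕ → Bool} {x : ℕ → K} :
    Canon n A x ↔ ∀ j i, Con n A j i → x j ≠ x i := by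
  constructor
  · rintro h j i ⟨t, h1, h2, h3, h4, h5⟩
    have := h t h1 h2 h3
    rw [idx_true h3, idx_false h2, h4, h5] at this
    exact this.symm
  · intro h t h1 h2 h3
    have := h (cE A (t + 1)) (cM A t) ⟨t, h1, h2, h3, rfl, rfl⟩
    rw [idx_true h3, idx_false h2]
    exact this.symm

open scoped Classical in
/-- number of choices for the letter `j` -/
noncomputable def cc (n k : ℕ) (A : ℕ → Bool) (j : ℕ) : ℕ := if ∃ i, Con n A j i then k - 1 else k

open scoped Classical in
/-- allowed letters for canonical words -/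
noncomputable def al {k : ℕ} (n : ℕ) (A : ℕ → Bool) (j : ℕ) (y : ℕ → Fin k) : Finset (Fin k) :=
  univ.filter fun c => ∀ i, Con n A j i → c ≠ y i

theorem al_card {k n : ℕ} (A : ℕ → Bool) (j : ℕ) (y : ℕ → Fin k) :
    (al n A j y).card = cc n k A j := by
  classical
  unfold al cc
  split_ifs with h
  · obtain ⟨i, hi⟩ := h
    have : (univ.filter fun c : Fin k => ∀ i, Con n A j i → c ≠ y i) = univ.erase (y i) := by
      ext c
      simp only [mem_filter, mem_univ, true_and, mem_erase, and_true]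
      constructor
      · intro h; exact h i hi
      · intro h i' hi'
        rw [hi'.unique hi]; exact h
    rw [this, card_erase_of_mem (mem_univ _), card_univ, Fintype.card_fin]
  · have : (univ.filter fun c : Fin k => ∀ i, Con n A j i → c ≠ y i) = univ := by
      ext c
      simp only [mem_filter, mem_univ, true_and, iff_true]
      intro i hi
      exact absurd ⟨i, hi⟩ h
    rw [this, card_univ, Fintype.card_fin]

theorem al_loc {k n : ℕ} {A : ℕ → Bool} (hA : Path n A) (j : ℕ) (y y' : ℕ → Fin k)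
    (h : ∀ i < j, y i = y' i) : al n A j y = al n A j y' := by
  classical
  unfold al
  ext c
  simp only [mem_filter, mem_univ, true_and]
  constructor
  · intro h1 i hi
    rw [← h i (hi.lt hA)]; exact h1 i hi
  · intro h1 i hi
    rw [h i (hi.lt hA)]; exact h1 i hi

theorem Con.lt_n {n : ℕ} {A : ℕ → Bool} (hA : Path n A) {j i : ℕ} (h : Con n A j i) : j < n := by
  obtain ⟨t, h1, h2, h3, h4, h5⟩ := h
  have := cE_mono (A := A) (show t + 1 + 1 ≤ 2 * n by omega)
  rw [cE_succ_true h3, hA.endE] at this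
  omega

theorem canon_iff_good {k n : ℕ} [NeZero k] {A : ℕ → Bool} (hA : Path n A) (x : Fin n → Fin k) :
    Canon n A (ext x) ↔ x ∈ good (al n A) n := by
  classical
  rw [canon_iff, good, mem_filter]
  simp only [mem_univ, true_and]
  constructor
  · intro h j _
    unfold al
    simp only [mem_filter, mem_univ, true_and]
    intro i hi
    exact h j i hi
  · intro h j i hi
    have := h j (hi.lt_n hA)
    unfold al at this
    simp only [mem_filter, mem_univ, true_and] at this
    exact this i hi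

/-- the number of canonical words -/
theorem card_canon {k n : ℕ} [NeZero k] {A : ℕ → Bool} (hA : Path n A) :
    (good (k := k) (al n A) n).card = ∏ j ∈ range n, cc n k A j :=
  le_antisymm (good_le (al_loc hA) _ (fun j y => (al_card A j y).le) n)
    (le_good (al_loc hA) _ (fun j y => (al_card A j y).ge) n)

open scoped Classical in
/-- two forced equalities cost a factor `(k-1)^2` -/
theorem card_two {k n : ℕ} [NeZero k] (hk : 2 ≤ k) {A : ℕ → Bool} (hA : Path n A)
    {q₁ q₂ h₁ h₂ : ℕ} (hq₁ : q₁ < n) (hq₂ : q₂ < n) (hne : q₁ ≠ q₂) (hh₁ : h₁ < q₁)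
    (hh₂ : h₂ < q₂) :
    ((good (k := k) (al n A) n).filter fun x => ext x q₁ = ext x h₁ ∧ ext x q₂ = ext x h₂).card *
      ((k - 1) * (k - 1)) ≤ ∏ j ∈ range n, cc n k A j := by
  classical
  let allow : ℕ → (ℕ → Fin k) → Finset (Fin k) := fun j y =>
    (al n A j y).filter fun c => (j = q₁ → c = y h₁) ∧ (j = q₂ → c = y h₂)
  let c : ℕ → ℕ := fun j => if j = q₁ ∨ j = q₂ then 1 else cc n k A j
  have hloc : ∀ j y y', (∀ i < j, y i = y' i) → allow j y = allow j y' := by
    intro j y y' h
    simp only [allow]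
    rw [al_loc hA j y y' h]
    apply filter_congr
    intro a _
    constructor
    · rintro ⟨g1, g2⟩
      exact ⟨fun e => by rw [g1 e, h h₁ (by omega)], fun e => by rw [g2 e, h h₂ (by omega)]⟩
    · rintro ⟨g1, g2⟩
      exact ⟨fun e => by rw [g1 e, h h₁ (by omega)], fun e => by rw [g2 e, h h₂ (by omega)]⟩
  have hc : ∀ j y, (allow j y).card ≤ c j := by
    intro j y
    simp only [allow, c]
    split_ifs with h
    · rw [card_le_one]
      intro a ha b hb
      rw [mem_filter] at ha hb
      rcases h with h | h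
      · rw [ha.2.1 h, hb.2.1 h]
      · rw [ha.2.2 h, hb.2.2 h]
    · rw [← al_card A j y]
      exact card_le_card (filter_subset _ _)
  have hsub : ((good (k := k) (al n A) n).filter
      fun x => ext x q₁ = ext x h₁ ∧ ext x q₂ = ext x h₂) ⊆ good allow n := by
    intro x hx
    rw [mem_filter] at hx
    obtain ⟨g1, g2, g3⟩ := hx
    rw [good, mem_filter] at g1 ⊢
    refine ⟨mem_univ _, fun j hj => mem_filter.2 ⟨g1.2 j hj, ?_, ?_⟩⟩
    · rintro rfl; exact g2
    · rintro rfl; exact g3
  have h1 := (card_le_card hsub).trans (good_le hloc c hc n)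
  have hcc : ∀ j, k - 1 ≤ cc n k A j := by
    intro j
    unfold cc
    split_ifs <;> omega
  have e1 : ∏ j ∈ range n, c j = ∏ j ∈ ((range n).erase q₁).erase q₂, cc n k A j := by
    rw [← mul_prod_erase (range n) c (mem_range.2 hq₁),
      ← mul_prod_erase ((range n).erase q₁) c (mem_erase.2 ⟨hne.symm, mem_range.2 hq₂⟩)]
    have a1 : c q₁ = 1 := if_pos (Or.inl rfl)
    have a2 : c q₂ = 1 := if_pos (Or.inr rfl)
    rw [a1, a2, one_mul, one_mul]
    refine prod_congr rfl fun j hj => ?_
    rw [mem_erase, mem_erase] at hj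
    exact if_neg (by
      rintro (h | h)
      · exact hj.2.1 h
      · exact hj.1 h)
  have e2 : ∏ j ∈ range n, cc n k A j =
      cc n k A q₁ * (cc n k A q₂ * ∏ j ∈ ((range n).erase q₁).erase q₂, cc n k A j) := by
    rw [← mul_prod_erase (range n) _ (mem_range.2 hq₁),
      ← mul_prod_erase ((range n).erase q₁) _ (mem_erase.2 ⟨hne.symm, mem_range.2 hq₂⟩)]
  rw [e1] at h1
  rw [e2]
  calc _ ≤ (∏ j ∈ ((range n).erase q₁).erase q₂, cc n k A j) * ((k - 1) * (k - 1)) :=
        Nat.mul_le_mul_right _ h1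
    _ = (k - 1) * ((k - 1) * ∏ j ∈ ((range n).erase q₁).erase q₂, cc n k A j) := by ring
    _ ≤ _ := Nat.mul_le_mul (hcc _) (Nat.mul_le_mul_right _ (hcc _))

open scoped Classical in
/-- the same for two distinct unordered pairs -/
theorem card_pairs {k n : ℕ} [NeZero k] (hk : 2 ≤ k) {A : ℕ → Bool} (hA : Path n A)
    {a b c d : ℕ} (ha : a < n) (hb : b < n) (hc : c < n) (hd : d < n) (hab : a ≠ b) (hcd : c ≠ d)
    (hne : ¬ ((a = c ∧ b = d) ∨ (a = d ∧ b = c))) :
    ((good (k := k) (al n A) n).filter fun x => ext x a = ext x b ∧ ext x c = ext x d).card *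
      ((k - 1) * (k - 1)) ≤ ∏ j ∈ range n, cc n k A j := by
  classical
  wlog h1 : b < a generalizing a b
  · have := this hb ha hab.symm (by tauto) (by omega)
    refine le_trans (Nat.mul_le_mul_right _ (le_of_eq ?_)) this
    congr 1
    apply filter_congr
    intro x _
    rw [eq_comm (a := ext x a)]
  wlog h2 : d < c generalizing c d
  · have := this hd hc hcd.symm (by tauto) (by omega)
    refine le_trans (Nat.mul_le_mul_right _ (le_of_eq ?_)) this
    congr 1
    apply filter_congr
    intro x _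
    rw [eq_comm (a := ext x c)]
  by_cases hac : a = c
  · subst hac
    have hbd : b ≠ d := fun h => hne (Or.inl ⟨rfl, h⟩)
    rcases Nat.lt_or_ge b d with h3 | h3
    · have := card_two (k := k) hk hA ha hd (by omega) h1 h3
      refine le_trans (Nat.mul_le_mul_right _ (card_le_card ?_)) this
      intro x hx
      rw [mem_filter] at hx ⊢
      exact ⟨hx.1, hx.2.1, by rw [← hx.2.2, hx.2.1]⟩
    · have := card_two (k := k) hk hA ha hb (by omega) h2 (show d < b by omega)
      refine le_trans (Nat.mul_le_mul_right _ (card_le_card ?_)) this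
      intro x hx
      rw [mem_filter] at hx ⊢
      exact ⟨hx.1, hx.2.2, by rw [← hx.2.1, hx.2.2]⟩
  · exact card_two hk hA ha hc hac h1 h2

/-! ### Counting words with two coincidences -/

theorem idx_lt {n : ℕ} {A : ℕ → Bool} (hA : Path n A) {t : ℕ} (ht : t < 2 * n) : idx A t < n := by
  rcases Bool.eq_false_or_eq_true (A t) with h | h
  · rw [idx_true h]
    have := cE_mono (A := A) (show t + 1 ≤ 2 * n by omega)
    rw [cE_succ_true h, hA.endE] at this
    omega
  · rw [idx_false h]
    have := cM_mono (A := A) (show t + 1 ≤ 2 * n by omega)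
    rw [cM_succ_false h, hA.endM] at this
    omega

open scoped Classical in
/-- the times close to `τ` or `T` -/
noncomputable def Wn (r n τ T : ℕ) : Finset ℕ := (range (2 * n)).filter (Near r τ T)

theorem Wn_card (r n τ T : ℕ) : (Wn r n τ T).card ≤ 4 * r + 2 := by
  classical
  have hsub : Wn r n τ T ⊆ Icc (τ - r) (τ + r) ∪ Icc (T - r) (T + r) := by
    intro z hz
    unfold Wn at hz
    rw [mem_filter] at hz
    rw [mem_union, mem_Icc, mem_Icc]
    rcases hz.2 with h | h
    · left; omega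
    · right; omega
  refine (card_le_card hsub).trans ((card_union_le _ _).trans ?_)
  rw [Nat.card_Icc, Nat.card_Icc]
  omega

open scoped Classical in
theorem card_bad {k n r : ℕ} [NeZero k] (hk : 2 ≤ k) {A : ℕ → Bool} (hA : Path n A) :
    ((good (k := k) (al n A) n).filter fun x => ¬ NotBad r n A (ext x)).card ≤
      (2 * n) * ((4 * r + 2) ^ 4 * ((∏ j ∈ range n, cc n k A j) / ((k - 1) * (k - 1)))) := by
  classical
  have hT : ∀ τ, ∃ T, ∀ T', T' < 2 * n → A T' = false → cM A T' = cE A τ → T' = T := by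
    intro τ
    by_cases h : ∃ T', T' < 2 * n ∧ A T' = false ∧ cM A T' = cE A τ
    · obtain ⟨T, g1, g2, g3⟩ := h
      exact ⟨T, fun T' _ h2 h3 => deq_unique h2 g2 (by rw [h3, g3])⟩
    · exact ⟨0, fun T' h1 h2 h3 => absurd ⟨T', h1, h2, h3⟩ h⟩
  choose T hT using hT
  set P := ∏ j ∈ range n, cc n k A j with hP
  let G : ℕ × ℕ × ℕ × ℕ → Finset (Fin n → Fin k) := fun p =>
    if idx A p.1 ≠ idx A p.2.1 ∧ idx A p.2.2.1 ≠ idx A p.2.2.2 ∧
      ¬ ((idx A p.1 = idx A p.2.2.1 ∧ idx A p.2.1 = idx A p.2.2.2) ∨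
        (idx A p.1 = idx A p.2.2.2 ∧ idx A p.2.1 = idx A p.2.2.1)) then
      (good (k := k) (al n A) n).filter fun x => ext x (idx A p.1) = ext x (idx A p.2.1) ∧
        ext x (idx A p.2.2.1) = ext x (idx A p.2.2.2)
    else ∅
  have hG : ∀ τ, ∀ p ∈ Wn r n τ (T τ) ×ˢ Wn r n τ (T τ) ×ˢ Wn r n τ (T τ) ×ˢ Wn r n τ (T τ),
      (G p).card ≤ P / ((k - 1) * (k - 1)) := by
    intro τ p hp
    simp only [mem_product] at hp
    obtain ⟨p1, p2, p3, p4⟩ := hp
    have hlt : ∀ z ∈ Wn r n τ (T τ), z < 2 * n := fun z hz => by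
      unfold Wn at hz
      exact mem_range.1 (mem_filter.1 hz).1
    have hk1 : 0 < (k - 1) * (k - 1) := Nat.mul_pos (by omega) (by omega)
    simp only [G]
    split_ifs with h
    · rw [Nat.le_div_iff_mul_le hk1]
      exact card_pairs hk hA (idx_lt hA (hlt _ p1)) (idx_lt hA (hlt _ p2))
        (idx_lt hA (hlt _ p3)) (idx_lt hA (hlt _ p4)) h.1 h.2.1 h.2.2
    · simp
  have hsub : ((good (k := k) (al n A) n).filter fun x => ¬ NotBad r n A (ext x)) ⊆
      (range (2 * n)).biUnion fun τ =>
        (Wn r n τ (T τ) ×ˢ Wn r n τ (T τ) ×ˢ Wn r n τ (T τ) ×ˢ Wn r n τ (T τ)).biUnion G := by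
    intro x hx
    rw [mem_filter] at hx
    obtain ⟨hx1, hx2⟩ := hx
    unfold NotBad at hx2
    push Not at hx2
    obtain ⟨τ, T', u₁, v₁, u₂, v₂, hb⟩ := hx2
    have hTT : T' = T τ := hT τ T' hb.hT hb.eT hb.link
    rw [mem_biUnion]
    refine ⟨τ, mem_range.2 hb.hτ, ?_⟩
    rw [mem_biUnion]
    refine ⟨(u₁, v₁, u₂, v₂), ?_, ?_⟩
    · simp only [mem_product]
      unfold Wn
      rw [← hTT]
      exact ⟨mem_filter.2 ⟨mem_range.2 hb.hu₁, hb.nu₁⟩, mem_filter.2 ⟨mem_range.2 hb.hv₁, hb.nv₁⟩,
        mem_filter.2 ⟨mem_range.2 hb.hu₂, hb.nu₂⟩, mem_filter.2 ⟨mem_range.2 hb.hv₂, hb.nv₂⟩⟩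
    · simp only [G]
      rw [if_pos ⟨hb.ne₁, hb.ne₂, hb.ne⟩, mem_filter]
      exact ⟨hx1, hb.co₁, hb.co₂⟩
  refine (card_le_card hsub).trans ?_
  refine (card_biUnion_le_card_mul _ _ _ fun τ _ => ?_).trans (by rw [card_range])
  refine (card_biUnion_le_card_mul _ _ _ (hG τ)).trans ?_
  apply Nat.mul_le_mul_right
  rw [card_product, card_product, card_product]
  have hw := Wn_card r n τ (T τ)
  calc _ ≤ (4 * r + 2) * ((4 * r + 2) * ((4 * r + 2) * (4 * r + 2))) :=
        Nat.mul_le_mul hw (Nat.mul_le_mul hw (Nat.mul_le_mul hw hw))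
    _ = _ := by ring

open scoped Classical in
/-- many canonical words without two coincidences -/
theorem many_words {k n r : ℕ} [NeZero k] (hk : 2 ≤ k) {A : ℕ → Bool} (hA : Path n A)
    (hsmall : 4 * n * (4 * r + 2) ^ 4 ≤ (k - 1) * (k - 1)) :
    ∏ j ∈ range n, cc n k A j ≤
      2 * (univ.filter fun x : Fin n → Fin k => Canon n A (ext x) ∧ NotBad r n A (ext x)).card := by
  classical
  have h1 := card_bad (k := k) (r := r) hk hA
  have h2 : (good (k := k) (al n A) n).card = ∏ j ∈ range n, cc n k A j := card_canon hA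
  have h3 : (univ.filter fun x : Fin n → Fin k => Canon n A (ext x) ∧ NotBad r n A (ext x)) =
      (good (k := k) (al n A) n).filter fun x => NotBad r n A (ext x) := by
    ext x
    rw [mem_filter, mem_filter, ← canon_iff_good hA]
    simp
  have h4 := card_filter_add_card_filter_not (s := good (k := k) (al n A) n)
    (fun x => NotBad r n A (ext x))
  rw [h3]
  set P := ∏ j ∈ range n, cc n k A j with hP
  have h5 : 2 * ((2 * n) * ((4 * r + 2) ^ 4 * (P / ((k - 1) * (k - 1))))) ≤ P := by
    calc 2 * ((2 * n) * ((4 * r + 2) ^ 4 * (P / ((k - 1) * (k - 1)))))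
        = (4 * n * (4 * r + 2) ^ 4) * (P / ((k - 1) * (k - 1))) := by ring
      _ ≤ ((k - 1) * (k - 1)) * (P / ((k - 1) * (k - 1))) := Nat.mul_le_mul_right _ hsmall
      _ ≤ P := Nat.mul_div_le _ _
  omega

end Pool.Agent.Q290.SSq
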