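import Mathlib

set_option autoImplicit false

namespace Pool.Agent.Q290.SSq

/-- The subword of `V` formed by the positions whose mark in `m` is `b`. -/
def pick {A : Type} (b : Bool) (m : List Bool) (V : List A) : List A :=
  ((V.zip m).filter fun p => p.2 = b).map Prod.fst

/-- `V` is a shuffle square: its positions split into two classes (marked by `m`) whose subwords
are equal. -/
def IsShuffleSquare {A : Type} (V : List A) : Prop :=
  ∃ m : List Bool, m.length = V.length ∧ pick true m V = pick false m V

/-- The set of shuffle squares of semi-length `n` over an alphabet with `k` letters. -/
def ShuffleSquares (k n : ℕ) : Set (List (Fin k)) :=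
  {V | V.length = 2 * n ∧ IsShuffleSquare V}

/-- The number of shuffle squares of semi-length `n` over an alphabet with `k` letters. -/
noncomputable def numSS (k n : ℕ) : ℕ := (ShuffleSquares k n).ncard

end Pool.Agent.Q290.SSq
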