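import Mathlib
import Pool.Agent.Q290.SSq.Count

set_option autoImplicit false

/-!
Dyck paths with few valleys and no long runs.
-/

namespace Pool.Agent.Q290.SSq

open Finset DyckStep DyckWord BinaryTree

/-- the Boolean sequence of a list of steps -/
def seqA (L : List DyckStep) (t : ℕ) : Bool := decide (L[t]? = some U)

theorem seqA_cons_zero (a : DyckStep) (l : List DyckStep) : seqA (a :: l) 0 = decide (a = U) := by
  simp [seqA]

theorem seqA_cons_succ (a : DyckStep) (l : List DyckStep) (t : ℕ) :
    seqA (a :: l) (t + 1) = seqA l t := by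
  simp [seqA]

theorem cE_seqA (L : List DyckStep) (t : ℕ) : cE (seqA L) t = (L.take t).count U := by
  induction t with
  | zero => simp [cE]
  | succ t ih =>
    rw [cE, ih, List.take_add_one, List.count_append]
    congr 1
    unfold seqA
    cases h : L[t]? with
    | none => simp
    | some a => cases a <;> simp

theorem count_add_count (L : List DyckStep) : L.count U + L.count D = L.length := by
  induction L with
  | nil => rfl
  | cons a l ih => cases a <;> simp <;> omega

theorem path_of_dyck (p : DyckWord) : Path p.semilength (seqA p.toList) := by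
  have hlen := p.two_mul_semilength_eq_length
  refine ⟨fun t ht => ?_, ?_⟩
  · have h1 := cE_add_cM (seqA p.toList) t
    have h2 := p.count_D_le_count_U t
    have h3 := count_add_count (p.toList.take t)
    rw [List.length_take, min_eq_left (by omega)] at h3
    rw [cE_seqA] at h1 ⊢
    omega
  · rw [cE_seqA, List.take_of_length_le (by omega)]
    rfl

/-- number of valleys `DU` -/
def val : List DyckStep → ℕ
  | [] => 0
  | a :: l => (if a = D ∧ l.head? = some U then 1 else 0) + val l

theorem val_cons2 (x y : DyckStep) (l : List DyckStep) :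
    val (x :: y :: l) = (if x = D ∧ y = U then 1 else 0) + val (y :: l) := by
  change (if x = D ∧ (y :: l).head? = some U then 1 else 0) + val (y :: l) = _
  simp

theorem val_append (a b : List DyckStep) : val (a ++ b) = val a + val b +
    (if a.getLast? = some D ∧ b.head? = some U then 1 else 0) := by
  induction a with
  | nil => simp [val]
  | cons x a ih =>
    rcases a with _ | ⟨y, a⟩
    · simp [val]
      ring
    · have e1 : val (x :: y :: a ++ b) = (if x = D ∧ y = U then 1 else 0) + val (y :: a ++ b) :=
        val_cons2 x y (a ++ b)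
      rw [e1, ih, val_cons2, List.getLast?_cons_cons]
      ring

/-- number of valleys before time `N` -/
def cv (A : ℕ → Bool) (N : ℕ) : ℕ := ∑ t ∈ range N, if A t = false ∧ A (t + 1) = true then 1 else 0

theorem cv_seqA (L : List DyckStep) : cv (seqA L) L.length = val L := by
  induction L with
  | nil => rfl
  | cons a l ih =>
    unfold cv at *
    rw [List.length_cons, Finset.sum_range_succ', val, ← ih, add_comm]
    congr 1
    · rw [seqA_cons_zero, seqA_cons_succ]
      congr 1
      apply propext
      unfold seqA
      rw [← List.head?_eq_getElem?]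
      cases a <;> simp

theorem card_con_le {n : ℕ} (A : ℕ → Bool) :
    (by classical exact ((range n).filter fun j => ∃ i, Con n A j i).card) ≤ cv A (2 * n) := by
  classical
  have h1 : cv A (2 * n) =
      ((range (2 * n)).filter fun t => A t = false ∧ A (t + 1) = true).card := by
    unfold cv
    rw [Finset.card_filter]
  rw [h1]
  have hex : ∀ j ∈ (range n).filter fun j => ∃ i, Con n A j i,
      ∃ t, t ∈ (range (2 * n)).filter (fun t => A t = false ∧ A (t + 1) = true) ∧
        cE A (t + 1) = j := by
    intro j hj
    obtain ⟨i, t, h1, h2, h3, h4, h5⟩ := (mem_filter.1 hj).2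
    exact ⟨t, mem_filter.2 ⟨mem_range.2 (by omega), h2, h3⟩, h4⟩
  choose! f hf using hex
  refine card_le_card_of_injOn f (fun j hj => (hf j hj).1) ?_
  intro j hj j' hj' h
  rw [← (hf j hj).2, ← (hf j' hj').2, h]

theorem prod_cc_ge {n k v : ℕ} {A : ℕ → Bool} (hv : cv A (2 * n) ≤ v) (hvn : v ≤ n) :
    (k - 1) ^ v * k ^ (n - v) ≤ ∏ j ∈ range n, cc n k A j := by
  classical
  have h1 := (card_con_le (n := n) A).trans hv
  unfold cc
  rw [prod_ite, prod_const, prod_const]
  set c := ((range n).filter fun j => ∃ i, Con n A j i).card with hc
  have h2 : ((range n).filter fun j => ¬ ∃ i, Con n A j i).card = n - c := by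
    have := card_filter_add_card_filter_not (s := range n) (fun j => ∃ i, Con n A j i)
    rw [card_range] at this
    omega
  rw [h2]
  have hcv : c ≤ v := by convert h1
  have e1 : v = c + (v - c) := by omega
  have e2 : n - c = (v - c) + (n - v) := by omega
  calc (k - 1) ^ v * k ^ (n - v) = (k - 1) ^ c * (k - 1) ^ (v - c) * k ^ (n - v) := by
        rw [← pow_add, ← e1]
    _ ≤ (k - 1) ^ c * k ^ (v - c) * k ^ (n - v) := by
        apply Nat.mul_le_mul_right
        apply Nat.mul_le_mul_left
        exact Nat.pow_le_pow_left (Nat.sub_le _ _) _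
    _ = _ := by rw [e2, pow_add, mul_assoc]

/-! ### Trees -/

/-- number of right edges -/
def rE : BinaryTree Unit → ℕ
  | .nil => 0
  | .node _ l r => rE l + rE r + if r = .nil then 0 else 1

/-- number of left edges -/
def lE : BinaryTree Unit → ℕ
  | .nil => 0
  | .node _ l r => lE l + lE r + if l = .nil then 0 else 1

/-- mirror image -/
def mir : BinaryTree Unit → BinaryTree Unit
  | .nil => .nil
  | .node a l r => .node a (mir r) (mir l)

theorem mir_mir (T : BinaryTree Unit) : mir (mir T) = T := by
  induction T with
  | nil => rfl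
  | node a l r ihl ihr => rw [mir, mir, ihl, ihr]

theorem mir_eq_nil (T : BinaryTree Unit) : mir T = .nil ↔ T = .nil := by
  cases T <;> simp [mir]

theorem rE_mir (T : BinaryTree Unit) : rE (mir T) = lE T := by
  induction T with
  | nil => rfl
  | node a l r ihl ihr =>
    rw [mir, rE, lE, ihl, ihr]
    simp only [mir_eq_nil]
    ring

theorem numNodes_mir (T : BinaryTree Unit) : (mir T).numNodes = T.numNodes := by
  induction T with
  | nil => rfl
  | node a l r ihl ihr =>
    rw [mir, numNodes, numNodes, ihl, ihr]
    ring

theorem edges (T : BinaryTree Unit) (h : T ≠ .nil) : rE T + lE T + 1 = T.numNodes := by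
  induction T with
  | nil => exact absurd rfl h
  | node a l r ihl ihr =>
    rw [rE, lE, numNodes]
    by_cases h1 : l = .nil
    · by_cases h2 : r = .nil
      · subst h1; subst h2
        simp [rE, lE, numNodes]
      · subst h1
        have := ihr h2
        rw [if_neg h2, if_pos rfl]
        simp only [rE, lE, numNodes]
        omega
    · by_cases h2 : r = .nil
      · subst h2
        have := ihl h1
        rw [if_neg h1, if_pos rfl]
        simp only [rE, lE, numNodes]
        omega
      · have := ihl h1
        have := ihr h2
        rw [if_neg h1, if_neg h2]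
        omega

theorem ofTree_eq_zero (T : BinaryTree Unit) : ofTree T = 0 ↔ T = .nil := by
  constructor
  · intro h
    have := toTree_ofTree T
    rw [h] at this
    rw [← this]
    simp [toTree]
  · rintro rfl; rfl

theorem val_nest (p : DyckWord) : val (p.nest).toList = val p.toList := by
  have h : (p.nest).toList = [U] ++ p.toList ++ [D] := rfl
  rw [h, val_append, val_append]
  simp [val]

theorem val_ofTree (T : BinaryTree Unit) : val (ofTree T).toList = rE T := by
  induction T with
  | nil => rfl
  | node a l r ihl ihr =>
    have h : (ofTree (.node a l r)).toList = (ofTree l).nest.toList ++ (ofTree r).toList := rfl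
    rw [h, val_append, val_nest, ihl, ihr, rE]
    congr 1
    have h1 : (ofTree l).nest.toList.getLast? = some D := by
      have : (ofTree l).nest.toList = [U] ++ (ofTree l).toList ++ [D] := rfl
      rw [this, List.getLast?_append]
      rfl
    by_cases hr : r = .nil
    · subst hr
      rw [if_pos rfl, if_neg]
      rintro ⟨-, h2⟩
      simp [ofTree] at h2
      cases h2
    · rw [if_neg hr, if_pos]
      refine ⟨h1, ?_⟩
      have hne : (ofTree r).toList ≠ [] := toList_ne_nil.2 fun h => hr ((ofTree_eq_zero r).1 h)
      rw [List.head?_eq_some_head hne, head_eq_U]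

/-- the path of a tree -/
def pA (T : BinaryTree Unit) : ℕ → Bool := seqA (ofTree T).toList

theorem semilength_ofTree (T : BinaryTree Unit) : (ofTree T).semilength = T.numNodes := by
  rw [← numNodes_toTree, toTree_ofTree]

theorem length_ofTree (T : BinaryTree Unit) : (ofTree T).toList.length = 2 * T.numNodes := by
  rw [← two_mul_semilength_eq_length, semilength_ofTree]

theorem path_pA (T : BinaryTree Unit) : Path T.numNodes (pA T) := by
  have := path_of_dyck (ofTree T)
  rwa [semilength_ofTree] at this

theorem cv_pA (T : BinaryTree Unit) : cv (pA T) (2 * T.numNodes) = rE T := by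
  rw [← length_ofTree, pA, cv_seqA, val_ofTree]

theorem pA_inj {n : ℕ} {T T' : BinaryTree Unit} (h : T.numNodes = n) (h' : T'.numNodes = n)
    (he : ∀ t < 2 * n, pA T t = pA T' t) : T = T' := by
  have h1 : (ofTree T).toList = (ofTree T').toList := by
    apply List.ext_getElem
    · rw [length_ofTree, length_ofTree, h, h']
    · intro i hi hi'
      have := he i (by rw [length_ofTree, h] at hi; exact hi)
      unfold pA seqA at this
      rw [List.getElem?_eq_getElem hi, List.getElem?_eq_getElem hi'] at this
      simp only [Option.some.injEq, decide_eq_decide] at this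
      revert this
      generalize (ofTree T).toList[i] = a
      generalize (ofTree T').toList[i] = b
      cases a <;> cases b <;> simp
  have h2 : ofTree T = ofTree T' := DyckWord.ext h1
  rw [← toTree_ofTree T, h2, toTree_ofTree]

/-- half of the trees have few right edges -/
theorem half_trees {n : ℕ} (hn : 1 ≤ n) :
    catalan n ≤ 2 * ((treesOfNumNodesEq n).filter fun T => 2 * rE T + 1 ≤ n).card := by
  classical
  rw [← treesOfNumNodesEq_card_eq_catalan,
    ← card_filter_add_card_filter_not (s := treesOfNumNodesEq n) (fun T => 2 * rE T + 1 ≤ n)]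
  have h : ((treesOfNumNodesEq n).filter fun T => ¬ (2 * rE T + 1 ≤ n)).card ≤
      ((treesOfNumNodesEq n).filter fun T => 2 * rE T + 1 ≤ n).card := by
    refine card_le_card_of_injOn mir ?_ ?_
    · intro T hT
      rw [mem_coe, mem_filter, mem_treesOfNumNodesEq] at hT ⊢
      refine ⟨by rw [numNodes_mir]; exact hT.1, ?_⟩
      have hne : T ≠ .nil := by
        rintro rfl
        rw [numNodes] at hT
        omega
      have := edges T hne
      rw [rE_mir]
      omega
    · intro T _ T' _ h
      rw [← mir_mir T, h, mir_mir]
  omega

/-- functions that are `true` on a given window -/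
theorem card_window {N R t : ℕ} (h : t + R ≤ N) :
    (univ.filter fun f : Fin N → Bool => ∀ i : Fin N, t ≤ i.1 → i.1 < t + R → f i = true).card =
      2 ^ (N - R) := by
  classical
  have h1 : (univ.filter fun f : Fin N → Bool => ∀ i : Fin N, t ≤ i.1 → i.1 < t + R → f i = true) =
      Fintype.piFinset fun i : Fin N => if t ≤ i.1 ∧ i.1 < t + R then {true} else univ := by
    ext f
    rw [mem_filter, Fintype.mem_piFinset]
    simp only [mem_univ, true_and]
    refine forall_congr' fun i => ?_
    split_ifs with hi
    · rw [mem_singleton]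
      exact ⟨fun h => h hi.1 hi.2, fun h _ _ => h⟩
    · simp only [mem_univ, iff_true]
      intro g1 g2
      exact absurd ⟨g1, g2⟩ hi
  rw [h1, Fintype.card_piFinset]
  have h2 : ∀ i : Fin N, (if t ≤ i.1 ∧ i.1 < t + R then ({true} : Finset Bool) else univ).card =
      if t ≤ i.1 ∧ i.1 < t + R then 1 else 2 := by
    intro i
    split_ifs <;> rfl
  simp_rw [h2]
  rw [prod_ite, prod_const, prod_const, one_pow, one_mul]
  congr 1
  have h3 := card_filter_add_card_filter_not (s := (univ : Finset (Fin N)))
    (fun i => t ≤ i.1 ∧ i.1 < t + R)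
  rw [card_univ, Fintype.card_fin] at h3
  have h4 : ((univ : Finset (Fin N)).filter fun i => t ≤ i.1 ∧ i.1 < t + R).card = R := by
    have : ((univ : Finset (Fin N)).filter fun i => t ≤ i.1 ∧ i.1 < t + R).card =
        (Ico t (t + R)).card := by
      refine card_bij (fun i _ => i.1) ?_ ?_ ?_
      · intro i hi
        rw [mem_filter] at hi
        exact mem_Ico.2 hi.2
      · intro i _ j _ h; exact Fin.ext h
      · intro j hj
        rw [mem_Ico] at hj
        exact ⟨⟨j, by omega⟩, mem_filter.2 ⟨mem_univ _, hj⟩, rfl⟩
    rw [this, Nat.card_Ico]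
    omega
  omega

open scoped Classical in
/-- few trees have a long run -/
theorem card_run {n R : ℕ} :
    ((treesOfNumNodesEq n).filter fun T => ¬ NoRun n R (pA T)).card ≤
      (2 * n + 1) * 2 ^ (2 * n - R) := by
  classical
  have h1 : ((treesOfNumNodesEq n).filter fun T => ¬ NoRun n R (pA T)).card ≤
      ((range (2 * n + 1)).biUnion fun t => if t + R ≤ 2 * n then
        (univ.filter fun f : Fin (2 * n) → Bool => ∀ i : Fin (2 * n), t ≤ i.1 → i.1 < t + R →
          f i = true) else ∅).card := by
    refine card_le_card_of_injOn (fun T i => pA T i.1) ?_ ?_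
    · intro T hT
      rw [mem_coe, mem_filter] at hT
      obtain ⟨hT1, hT2⟩ := hT
      unfold NoRun at hT2
      push Not at hT2
      obtain ⟨t, ht, hrun⟩ := hT2
      rw [mem_coe, mem_biUnion]
      refine ⟨t, mem_range.2 (by omega), ?_⟩
      rw [if_pos ht, mem_filter]
      refine ⟨mem_univ _, fun i hi1 hi2 => ?_⟩
      have := hrun i.1 hi1 hi2
      simpa using this
    · intro T hT T' hT' h
      rw [mem_coe, mem_filter, mem_treesOfNumNodesEq] at hT hT'
      exact pA_inj hT.1 hT'.1 fun t ht => congrFun h ⟨t, ht⟩
  refine h1.trans ?_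
  refine (card_biUnion_le_card_mul _ _ (2 ^ (2 * n - R)) fun t _ => ?_).trans
    (by rw [card_range])
  split_ifs with h
  · rw [card_window h]
  · simp

open scoped Classical in
/-- the family of paths -/
noncomputable def fam (n R : ℕ) : Finset (BinaryTree Unit) :=
  (treesOfNumNodesEq n).filter fun T => 2 * rE T + 1 ≤ n ∧ NoRun n R (pA T)

theorem catalan_le_fam {n R : ℕ} (hn : 1 ≤ n) :
    catalan n ≤ 2 * (fam n R).card + 2 * ((2 * n + 1) * 2 ^ (2 * n - R)) := by
  classical
  have h1 := half_trees hn
  have h2 := card_run (n := n) (R := R)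
  have h3 : ((treesOfNumNodesEq n).filter fun T => 2 * rE T + 1 ≤ n).card ≤
      (fam n R).card + ((treesOfNumNodesEq n).filter fun T => ¬ NoRun n R (pA T)).card := by
    refine (card_le_card ?_).trans (card_union_le _ _)
    intro T hT
    rw [mem_filter] at hT
    unfold fam
    rw [mem_union, mem_filter, mem_filter]
    by_cases h : NoRun n R (pA T)
    · exact Or.inl ⟨hT.1, hT.2, h⟩
    · exact Or.inr ⟨hT.1, h⟩
  omega

end Pool.Agent.Q290.SSq
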