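import Mathlib
import Pool.Agent.Q290.SSq.Defs
import Pool.Agent.Q290.SSq.Trees

set_option autoImplicit false

/-!
Lower bound for the number of shuffle squares.
-/

namespace Pool.Agent.Q290.SSq

open Finset BinaryTree

theorem pick_nil {A : Type} (b : Bool) : pick b [] ([] : List A) = [] := rfl

theorem pick_append {A : Type} (b : Bool) {m₁ m₂ : List Bool} {V₁ V₂ : List A}
    (h : m₁.length = V₁.length) :
    pick b (m₁ ++ m₂) (V₁ ++ V₂) = pick b m₁ V₁ ++ pick b m₂ V₂ := by
  unfold pick
  rw [List.zip_append h.symm, List.filter_append, List.map_append]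

/-- the word of a path and a sequence of letters -/
def wordOf {K : Type} (n : ℕ) (A : ℕ → Bool) (x : ℕ → K) : List K :=
  (List.range (2 * n)).map fun t => x (idx A t)

theorem pick_range {K : Type} (A : ℕ → Bool) (x : ℕ → K) (t : ℕ) :
    pick true ((List.range t).map A) ((List.range t).map fun t => x (idx A t)) =
      (List.range (cE A t)).map x ∧
    pick false ((List.range t).map A) ((List.range t).map fun t => x (idx A t)) =
      (List.range (cM A t)).map x := by
  induction t with
  | zero => exact ⟨rfl, rfl⟩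
  | succ t ih =>
    rw [List.range_succ, List.map_append, List.map_append, pick_append _ (by simp),
      pick_append _ (by simp), ih.1, ih.2]
    rcases Bool.eq_false_or_eq_true (A t) with h | h
    · rw [cE_succ_true h, cM_succ_true h]
      constructor
      · rw [List.range_succ, List.map_append]
        congr 1
        simp [pick, h, idx_true h]
      · simp [pick, h]
    · rw [cE_succ_false h, cM_succ_false h]
      constructor
      · simp [pick, h]
      · rw [List.range_succ, List.map_append]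
        congr 1
        simp [pick, h, idx_false h]

theorem wordOf_mem {k n : ℕ} {A : ℕ → Bool} (hA : Path n A) (x : ℕ → Fin k) :
    wordOf n A x ∈ ShuffleSquares k n := by
  refine ⟨by simp [wordOf], (List.range (2 * n)).map A, by simp [wordOf], ?_⟩
  have h := pick_range A x (2 * n)
  unfold wordOf
  rw [h.1, h.2, hA.endE, hA.endM]

theorem wordOf_eq {K : Type} {n : ℕ} {A A' : ℕ → Bool} {x x' : ℕ → K}
    (h : wordOf n A x = wordOf n A' x') : ∀ t < 2 * n, x (idx A t) = x' (idx A' t) := by
  intro t ht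
  have h1 : (wordOf n A x)[t]? = (wordOf n A' x')[t]? := by rw [h]
  unfold wordOf at h1
  simpa [ht] using h1

theorem finite_SS (k n : ℕ) : (ShuffleSquares k n).Finite :=
  (List.finite_length_eq (Fin k) (2 * n)).subset fun _ h => h.1

theorem lower_count {k n R r : ℕ} (hk : 2 ≤ k) (hR : 1 ≤ R) (hr : 4 * R * R ≤ r)
    (hsmall : 4 * n * (4 * r + 2) ^ 4 ≤ (k - 1) * (k - 1)) :
    (fam n R).card * ((k - 1) ^ ((n - 1) / 2) * k ^ (n - (n - 1) / 2)) ≤ 2 * numSS k n := by
  classical
  have : NeZero k := ⟨by omega⟩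
  set v := (n - 1) / 2 with hv
  let X : BinaryTree Unit → Finset (Fin n → Fin k) := fun T =>
    univ.filter fun x => Canon n (pA T) (ext x) ∧ NotBad r n (pA T) (ext x)
  have hfam : ∀ T ∈ fam n R, Path n (pA T) ∧ NoRun n R (pA T) ∧ T.numNodes = n ∧
      cv (pA T) (2 * n) ≤ v := by
    intro T hT
    unfold fam at hT
    rw [mem_filter, mem_treesOfNumNodesEq] at hT
    obtain ⟨h1, h2, h3⟩ := hT
    refine ⟨by rw [← h1]; exact path_pA T, h3, h1, ?_⟩
    rw [← h1, cv_pA]
    omega
  have hX : ∀ T ∈ fam n R, (k - 1) ^ v * k ^ (n - v) ≤ 2 * (X T).card := by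
    intro T hT
    obtain ⟨h1, _, _, h4⟩ := hfam T hT
    exact (prod_cc_ge h4 (by omega)).trans (many_words hk h1 hsmall)
  have hinj : ((fam n R).sigma X).card ≤ (finite_SS k n).toFinset.card := by
    refine card_le_card_of_injOn (fun p => wordOf n (pA p.1) (ext p.2)) ?_ ?_
    · rintro ⟨T, x⟩ hp
      rw [mem_coe, mem_sigma] at hp
      rw [mem_coe, Set.Finite.mem_toFinset]
      exact wordOf_mem (hfam T hp.1).1 _
    · rintro ⟨T, x⟩ hp ⟨T', x'⟩ hp' h
      rw [mem_coe, mem_sigma] at hp hp'
      obtain ⟨g1, g2⟩ := hp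
      obtain ⟨g1', g2'⟩ := hp'
      simp only at g1 g2 g1' g2' h
      obtain ⟨a1, a2, a3, _⟩ := hfam T g1
      obtain ⟨b1, b2, b3, _⟩ := hfam T' g1'
      have c1 := (mem_filter.1 g2).2
      have c2 := (mem_filter.1 g2').2
      have hw := wordOf_eq h
      have hA := unique_decoding hR hr a1 b1 a2 b2 c1.2 c2.2 c1.1 c2.1 hw
      have hT : T = T' := pA_inj a3 b3 hA
      subst hT
      have hx : x = x' := by
        funext i
        obtain ⟨t, ht1, ht2, ht3⟩ := exists_deq a1 i.2
        have := hw t ht1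
        rw [idx_false ht2, ht3, ext_lt _ i.2, ext_lt _ i.2] at this
        exact this
      rw [hx]
  have hnum : (finite_SS k n).toFinset.card = numSS k n :=
    (Set.ncard_eq_toFinset_card _ (finite_SS k n)).symm
  rw [hnum, card_sigma] at hinj
  calc (fam n R).card * ((k - 1) ^ v * k ^ (n - v))
      = ∑ T ∈ fam n R, ((k - 1) ^ v * k ^ (n - v)) := by rw [sum_const, smul_eq_mul]
    _ ≤ ∑ T ∈ fam n R, 2 * (X T).card := sum_le_sum hX
    _ = 2 * ∑ T ∈ fam n R, (X T).card := by rw [mul_sum]
    _ ≤ _ := Nat.mul_le_mul_left _ hinj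

/-- supermultiplicativity -/
theorem numSS_mul (k m n : ℕ) : numSS k m * numSS k n ≤ numSS k (m + n) := by
  classical
  unfold numSS
  rw [Set.ncard_eq_toFinset_card _ (finite_SS k m), Set.ncard_eq_toFinset_card _ (finite_SS k n),
    Set.ncard_eq_toFinset_card _ (finite_SS k (m + n)), ← card_product]
  refine card_le_card_of_injOn (fun p => p.1 ++ p.2) ?_ ?_
  · rintro ⟨V, W⟩ hp
    rw [mem_coe, mem_product, Set.Finite.mem_toFinset, Set.Finite.mem_toFinset] at hp
    obtain ⟨⟨h1, m₁, h2, h3⟩, h4, m₂, h5, h6⟩ := hp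
    rw [mem_coe, Set.Finite.mem_toFinset]
    simp only at h1 h2 h3 h4 h5 h6 ⊢
    refine ⟨by rw [List.length_append, h1, h4]; ring, m₁ ++ m₂, by
      rw [List.length_append, List.length_append, h2, h5], ?_⟩
    rw [pick_append _ h2, pick_append _ h2, h3, h6]
  · rintro ⟨V, W⟩ hp ⟨V', W'⟩ hp' h
    rw [mem_coe, mem_product, Set.Finite.mem_toFinset, Set.Finite.mem_toFinset] at hp hp'
    have h1 := hp.1.1
    have h2 := hp'.1.1
    have := List.append_inj h (by rw [h1, h2])
    exact Prod.ext this.1 this.2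

end Pool.Agent.Q290.SSq
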