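import Mathlib
import Pool.Agent.Q290.SSq.Lower

set_option autoImplicit false

/-!
Upper bound for the number of shuffle squares: canonical decodings and the transfer matrix.
-/

namespace Pool.Agent.Q290.SSq

open Finset

theorem cE_shift (A : ℕ → Bool) (t : ℕ) :
    cE A (t + 1) = (if A 0 then 1 else 0) + cE (fun s => A (s + 1)) t := by
  induction t with
  | zero => simp [cE]
  | succ t ih =>
    rw [cE, ih, cE]
    ring

theorem cM_shift (A : ℕ → Bool) (t : ℕ) :
    cM A (t + 1) = (if A 0 then 0 else 1) + cM (fun s => A (s + 1)) t := by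
  induction t with
  | zero => simp [cM]
  | succ t ih =>
    rw [cM, ih, cM]
    ring

/-- mask function -/
def mf (m : List Bool) (t : ℕ) : Bool := m.getD t false

theorem mf_cons_succ (b : Bool) (m : List Bool) : (fun s => mf (b :: m) (s + 1)) = mf m := by
  funext s
  simp [mf]

theorem pick_cons (K : Type) (b x : Bool) (a : K) (s : List Bool) (V : List K) :
    pick b (x :: s) (a :: V) = if x = b then a :: pick b s V else pick b s V := by
  unfold pick
  rw [List.zip_cons_cons, List.filter_cons]
  by_cases h : x = b <;> simp [h]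

theorem pick_get {K : Type} (m : List Bool) : ∀ (V : List K), m.length = V.length →
    ∀ t < m.length, (mf m t = true → (pick true m V)[cE (mf m) t]? = V[t]?) ∧
      (mf m t = false → (pick false m V)[cM (mf m) t]? = V[t]?) := by
  induction m with
  | nil => intro V _ t ht; exact absurd ht (Nat.not_lt_zero _)
  | cons b m ih =>
    intro V hV t ht
    match V with
    | a :: V =>
      simp only [List.length_cons, Nat.add_right_cancel_iff] at hV
      rcases t with _ | t
      · constructor
        · intro h
          have hb : b = true := by simpa [mf] using h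
          rw [pick_cons, if_pos hb]
          simp [cE]
        · intro h
          have hb : b = false := by simpa [mf] using h
          rw [pick_cons, if_pos hb]
          simp [cM]
      · have ht' : t < m.length := by simpa using ht
        have e0 : mf (b :: m) (t + 1) = mf m t := by simp [mf]
        have e00 : mf (b :: m) 0 = b := by simp [mf]
        obtain ⟨h1, h2⟩ := ih V hV t ht'
        rw [e0, cE_shift, cM_shift, mf_cons_succ, e00, pick_cons, pick_cons]
        constructor
        · intro h
          rw [List.getElem?_cons_succ, ← h1 h]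
          cases b
          · simp
          · simp [Nat.add_comm 1]
        · intro h
          rw [List.getElem?_cons_succ, ← h2 h]
          cases b
          · simp [Nat.add_comm 1]
          · simp

theorem pick_len {K : Type} (m : List Bool) : ∀ (V : List K), m.length = V.length →
    (pick true m V).length = cE (mf m) m.length ∧
    (pick false m V).length = cM (mf m) m.length := by
  induction m with
  | nil => intro V _; simp [pick, cE, cM]
  | cons b m ih =>
    intro V hV
    match V with
    | a :: V =>
      simp only [List.length_cons, Nat.add_right_cancel_iff] at hV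
      obtain ⟨h1, h2⟩ := ih V hV
      have e00 : mf (b :: m) 0 = b := by simp [mf]
      rw [List.length_cons, cE_shift, cM_shift, mf_cons_succ, e00, pick_cons, pick_cons]
      cases b
      · simp [h1, h2, Nat.add_comm 1]
      · simp [h1, h2, Nat.add_comm 1]

/-- every shuffle square is the word of a path -/
theorem exists_path {k n : ℕ} [NeZero k] {V : List (Fin k)} (hV : V ∈ ShuffleSquares k n) :
    ∃ (A : ℕ → Bool) (x : ℕ → Fin k), Path n A ∧ wordOf n A x = V := by
  obtain ⟨hlen, m, hm, hp⟩ := hV
  set p := cE (mf m) with hpdef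
  set q := cM (mf m) with hqdef
  let A : ℕ → Bool := fun t => if mf m t then decide (q t ≤ p t) else decide (p t ≤ q t)
  have hmax : ∀ t, cE A t = max (p t) (q t) ∧ cM A t = min (p t) (q t) := by
    intro t
    induction t with
    | zero => simp [cE, cM, hpdef, hqdef]
    | succ t ih =>
      rcases Bool.eq_false_or_eq_true (mf m t) with h | h
      · have ep : p (t + 1) = p t + 1 := cE_succ_true h
        have eq' : q (t + 1) = q t := cM_succ_true h
        have eA : A t = decide (q t ≤ p t) := by simp [A, h]
        by_cases hc : q t ≤ p t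
        · have eA' : A t = true := by rw [eA]; exact decide_eq_true hc
          rw [cE_succ_true eA', cM_succ_true eA', ih.1, ih.2, ep, eq']
          omega
        · have eA' : A t = false := by rw [eA]; exact decide_eq_false hc
          rw [cE_succ_false eA', cM_succ_false eA', ih.1, ih.2, ep, eq']
          omega
      · have ep : p (t + 1) = p t := cE_succ_false h
        have eq' : q (t + 1) = q t + 1 := cM_succ_false h
        have eA : A t = decide (p t ≤ q t) := by simp [A, h]
        by_cases hc : p t ≤ q t
        · have eA' : A t = true := by rw [eA]; exact decide_eq_true hc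
          rw [cE_succ_true eA', cM_succ_true eA', ih.1, ih.2, ep, eq']
          omega
        · have eA' : A t = false := by rw [eA]; exact decide_eq_false hc
          rw [cE_succ_false eA', cM_succ_false eA', ih.1, ih.2, ep, eq']
          omega
  have hml : m.length = 2 * n := hm.trans hlen
  have hends : p (2 * n) = q (2 * n) := by
    have h1 := pick_len m V hm
    rw [hml] at h1
    rw [hpdef, hqdef, ← h1.1, ← h1.2, hp]
  have hsum := cE_add_cM (mf m) (2 * n)
  have hpath : Path n A := by
    refine ⟨fun t _ => ?_, ?_⟩
    · rw [(hmax t).1, (hmax t).2]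
      exact min_le_max
    · rw [(hmax _).1, ← hends, max_self]
      have h1 : p (2 * n) + q (2 * n) = 2 * n := hsum
      omega
  refine ⟨A, fun i => (pick true m V).getD i 0, hpath, ?_⟩
  apply List.ext_getElem
  · rw [wordOf, List.length_map, List.length_range, hlen]
  · intro t ht1 ht2
    have ht : t < 2 * n := by omega
    have htm : t < m.length := by omega
    obtain ⟨g1, g2⟩ := pick_get m V hm t htm
    simp only [wordOf, List.getElem_map, List.getElem_range]
    have hidx : ∀ h : mf m t = true, idx A t = p t := by
      intro h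
      have eA : A t = decide (q t ≤ p t) := by simp [A, h]
      by_cases hc : q t ≤ p t
      · have eA' : A t = true := by rw [eA]; exact decide_eq_true hc
        rw [idx_true eA', (hmax t).1]
        omega
      · have eA' : A t = false := by rw [eA]; exact decide_eq_false hc
        rw [idx_false eA', (hmax t).2]
        omega
    have hidx' : ∀ h : mf m t = false, idx A t = q t := by
      intro h
      have eA : A t = decide (p t ≤ q t) := by simp [A, h]
      by_cases hc : p t ≤ q t
      · have eA' : A t = true := by rw [eA]; exact decide_eq_true hc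
        rw [idx_true eA', (hmax t).1]
        omega
      · have eA' : A t = false := by rw [eA]; exact decide_eq_false hc
        rw [idx_false eA', (hmax t).2]
        omega
    rcases Bool.eq_false_or_eq_true (mf m t) with h | h
    · rw [hidx h, List.getD_eq_getElem?_getD, hpdef, g1 h, List.getElem?_eq_getElem ht2]
      rfl
    · rw [hidx' h, List.getD_eq_getElem?_getD, hp, hqdef, g2 h, List.getElem?_eq_getElem ht2]
      rfl

/-! ### Canonical decodings -/

/-- exchange the steps `t`, `t+1` -/
def swp (A : ℕ → Bool) (t : ℕ) : ℕ → Bool := fun u =>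
  if u = t then true else if u = t + 1 then false else A u

theorem cE_swp {A : ℕ → Bool} {t : ℕ} (h0 : A t = false) (h1 : A (t + 1) = true) (u : ℕ) :
    cE (swp A t) u = cE A u + if u = t + 1 then 1 else 0 := by
  induction u with
  | zero => simp [cE]
  | succ u ih =>
    rw [cE, ih, cE]
    by_cases hu : u = t
    · subst hu
      simp [swp, h0]
    · by_cases hu' : u = t + 1
      · subst hu'
        simp [swp, h1]
      · have e : swp A t u = A u := by simp [swp, hu, hu']
        rw [e, if_neg hu', if_neg (show u + 1 ≠ t + 1 by omega)]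
        ring

theorem cM_swp {A : ℕ → Bool} {t : ℕ} (h0 : A t = false) (h1 : A (t + 1) = true) (u : ℕ) :
    cM (swp A t) u + (if u = t + 1 then 1 else 0) = cM A u := by
  have a := cE_swp h0 h1 u
  have b := cE_add_cM A u
  have c := cE_add_cM (swp A t) u
  omega

theorem exists_canon_aux {K : Type} {n : ℕ} (x : ℕ → K) (V : List K) :
    ∀ (d : ℕ) (A : ℕ → Bool), (2 * n + 1) * (2 * n + 1) - ∑ u ∈ range (2 * n + 1), cE A u = d →
      Path n A → wordOf n A x = V → ∃ A' : ℕ → Bool, Path n A' ∧ wordOf n A' x = V ∧
        Canon n A' x := by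
  intro d
  induction d using Nat.strong_induction_on with
  | _ d ih =>
    intro A hd hA hV
    by_cases hcan : Canon n A x
    · exact ⟨A, hA, hV, hcan⟩
    · unfold Canon at hcan
      push Not at hcan
      obtain ⟨t, ht, h0, h1, hx⟩ := hcan
      have hE := cE_swp h0 h1
      have hM := cM_swp h0 h1
      have hs0 : swp A t t = true := by simp [swp]
      have hs1 : swp A t (t + 1) = false := by simp [swp]
      have hpath : Path n (swp A t) := by
        refine ⟨fun u hu => ?_, ?_⟩
        · have := hA.le u hu
          have a := hE u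
          have b := hM u
          omega
        · rw [hE, if_neg (by omega), hA.endE, add_zero]
      have hword : wordOf n (swp A t) x = V := by
        rw [← hV]
        unfold wordOf
        apply List.map_congr_left
        intro u _
        by_cases hu : u = t
        · subst hu
          have e1 : idx (swp A u) u = idx A (u + 1) := by
            rw [idx_true hs0, idx_true h1, hE, cE_succ_false h0, if_neg (by omega), add_zero]
          rw [e1, hx]
        · by_cases hu' : u = t + 1
          · subst hu'
            have e1 : idx (swp A t) (t + 1) = idx A t := by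
              have a := hM (t + 1)
              rw [if_pos rfl, cM_succ_false h0] at a
              rw [idx_false hs1, idx_false h0]
              omega
            rw [e1, hx]
          · have e : swp A t u = A u := by simp [swp, hu, hu']
            have a := hE u
            have b := hM u
            rw [if_neg hu', add_zero] at a b
            have e1 : idx (swp A t) u = idx A u := by
              unfold idx
              rw [e, a, b]
            rw [e1]
      have hsum : ∑ u ∈ range (2 * n + 1), cE (swp A t) u =
          ∑ u ∈ range (2 * n + 1), cE A u + 1 := by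
        simp_rw [hE]
        rw [sum_add_distrib, sum_ite_eq', if_pos (mem_range.2 (by omega))]
      have hbound : ∑ u ∈ range (2 * n + 1), cE (swp A t) u ≤ (2 * n + 1) * (2 * n + 1) := by
        calc _ ≤ ∑ u ∈ range (2 * n + 1), (2 * n + 1) := by
              refine sum_le_sum fun u hu => ?_
              have a := cE_add_cM (swp A t) u
              have b := mem_range.1 hu
              omega
          _ = _ := by rw [sum_const, card_range, smul_eq_mul]
      exact ih _ (by omega) (swp A t) rfl hpath hword

theorem exists_canon {k n : ℕ} [NeZero k] {V : List (Fin k)} (hV : V ∈ ShuffleSquares k n) :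
    ∃ (A : ℕ → Bool) (x : ℕ → Fin k), Path n A ∧ wordOf n A x = V ∧ Canon n A x := by
  obtain ⟨A, x, h1, h2⟩ := exists_path hV
  obtain ⟨A', h3, h4, h5⟩ := exists_canon_aux x V _ A rfl h1 h2
  exact ⟨A', x, h3, h4, h5⟩

/-! ### Restriction to finite data -/

theorem counts_congr {A A' : ℕ → Bool} {N : ℕ} (h : ∀ t < N, A t = A' t) :
    ∀ t ≤ N, cE A t = cE A' t ∧ cM A t = cM A' t := by
  intro t
  induction t with
  | zero => intro _; exact ⟨rfl, rfl⟩
  | succ t ih =>
    intro ht
    obtain ⟨h1, h2⟩ := ih (by omega)
    rw [cE, cE, cM, cM, h1, h2, h t (by omega)]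
    exact ⟨rfl, rfl⟩

theorem idx_congr {A A' : ℕ → Bool} {N : ℕ} (h : ∀ t < N, A t = A' t) {t : ℕ} (ht : t < N) :
    idx A t = idx A' t := by
  obtain ⟨h1, h2⟩ := counts_congr h t ht.le
  unfold idx
  rw [h t ht, h1, h2]

/-- path of a finite sequence -/
def bA {N : ℕ} (f : Fin N → Fin 2) : ℕ → Bool := fun t => decide (ext f t = 1)

theorem numSS_le {k n : ℕ} [NeZero k] :
    numSS k n ≤ ∑ f : Fin (2 * n) → Fin 2,
      (by classical exact if Path n (bA f) then ∏ j ∈ range n, cc n k (bA f) j else 0) := by
  classical
  have hcard : numSS k n = (finite_SS k n).toFinset.card :=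
    Set.ncard_eq_toFinset_card _ (finite_SS k n)
  rw [hcard]
  let X : (Fin (2 * n) → Fin 2) → Finset (Fin n → Fin k) := fun f =>
    if Path n (bA f) then good (k := k) (al n (bA f)) n else ∅
  have h1 : (finite_SS k n).toFinset ⊆
      (univ.sigma X).image fun p => wordOf n (bA p.1) (ext p.2) := by
    intro V hV
    rw [Set.Finite.mem_toFinset] at hV
    obtain ⟨A, x, hA, hw, hc⟩ := exists_canon hV
    let f : Fin (2 * n) → Fin 2 := fun i => if A i then 1 else 0
    let y : Fin n → Fin k := fun i => x i
    have hf : ∀ t < 2 * n, A t = bA f t := by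
      intro t ht
      unfold bA
      rw [ext_lt _ ht]
      simp only [f]
      by_cases h : A t = true <;> simp [h]
    have hy : ∀ i < n, x i = ext y i := fun i hi => by rw [ext_lt _ hi]
    have hcounts := counts_congr hf
    have hpath : Path n (bA f) := by
      refine ⟨fun t ht => ?_, ?_⟩
      · rw [← (hcounts t ht).1, ← (hcounts t ht).2]
        exact hA.le t ht
      · rw [← (hcounts _ le_rfl).1]
        exact hA.endE
    have hlet : ∀ t < 2 * n, x (idx A t) = ext y (idx (bA f) t) := by
      intro t ht
      rw [← idx_congr hf ht]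
      exact hy _ (idx_lt hA ht)
    rw [mem_image]
    refine ⟨⟨f, y⟩, ?_, ?_⟩
    · rw [mem_sigma]
      refine ⟨mem_univ _, ?_⟩
      simp only [X]
      rw [if_pos hpath, ← canon_iff_good hpath]
      intro t ht h0 h1
      rw [← hlet t (by omega), ← hlet (t + 1) ht]
      exact hc t ht (by rw [hf t (by omega)]; exact h0) (by rw [hf _ ht]; exact h1)
    · rw [← hw]
      unfold wordOf
      apply List.map_congr_left
      intro t ht
      exact (hlet t (List.mem_range.1 ht)).symm
  refine (card_le_card h1).trans (card_image_le.trans ?_)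
  rw [card_sigma]
  refine sum_le_sum fun f _ => ?_
  simp only [X]
  split_ifs with h
  · rw [card_canon h]
  · simp

/-! ### Transfer matrix -/

/-- weight of a 0/1 sequence -/
noncomputable def wt (θ : ℝ) (y : ℕ → Fin 2) : ℕ → ℝ
  | 0 => 1
  | N + 1 => wt θ y N * if 1 ≤ N ∧ y (N - 1) = 0 ∧ y N = 1 then θ else 1

theorem wt_congr {θ : ℝ} {y y' : ℕ → Fin 2} {N : ℕ} (h : ∀ i < N, y i = y' i) :
    wt θ y N = wt θ y' N := by
  induction N with
  | zero => rfl
  | succ N ih =>
    rw [wt, wt, ih fun i hi => h i (by omega), h N (by omega), h (N - 1) (by omega)]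

theorem wt_pos {θ : ℝ} (hθ : 0 < θ) (y : ℕ → Fin 2) (N : ℕ) : 0 < wt θ y N := by
  induction N with
  | zero => exact one_pos
  | succ N ih =>
    rw [wt]
    split_ifs
    · exact mul_pos ih hθ
    · rw [mul_one]; exact ih

/-- potential -/
noncomputable def pot (r : ℝ) (y : ℕ → Fin 2) (N : ℕ) : ℝ :=
  wt (r ^ 2) y N * if 1 ≤ N ∧ y (N - 1) = 0 then r else 1

theorem sum_pot (r : ℝ) (N : ℕ) : ∑ f : Fin N → Fin 2, pot r (ext f) N = (1 + r) ^ N := by
  induction N with
  | zero =>
    rw [Fintype.sum_unique]
    simp [pot, wt]
  | succ N ih =>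
    have h1 : ∑ f : Fin (N + 1) → Fin 2, pot r (ext f) (N + 1) =
        ∑ p : Fin 2 × (Fin N → Fin 2),
          pot r (ext (Fin.snoc (α := fun _ => Fin 2) p.2 p.1)) (N + 1) :=
      ((Fin.snocEquiv (fun _ : Fin (N + 1) => Fin 2)).sum_comp
        (fun f => pot r (ext f) (N + 1))).symm
    rw [h1, Fintype.sum_prod_type, Fin.sum_univ_two, ← sum_add_distrib, pow_succ, ← ih, sum_mul]
    refine sum_congr rfl fun f _ => ?_
    have e1 : ∀ c : Fin 2, wt (r ^ 2) (ext (Fin.snoc (α := fun _ => Fin 2) f c)) N =
        wt (r ^ 2) (ext f) N := fun c => wt_congr fun i hi => ext_snoc_lt f c hi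
    unfold pot
    rw [wt, wt, e1, e1, ext_snoc_last, ext_snoc_last, Nat.add_sub_cancel, ext_snoc_last,
      ext_snoc_last]
    by_cases hN : 1 ≤ N
    · rw [ext_snoc_lt f _ (show N - 1 < N by omega), ext_snoc_lt f _ (show N - 1 < N by omega)]
      by_cases h0 : ext f (N - 1) = 0
      · simp [hN, h0]
        ring
      · simp [h0]
        ring
    · have : N = 0 := by omega
      subst this
      simp [wt]
      ring

theorem sum_wt {r : ℝ} (hr0 : 0 < r) (hr1 : r ≤ 1) (N : ℕ) :
    r * ∑ f : Fin N → Fin 2, wt (r ^ 2) (ext f) N ≤ (1 + r) ^ N := by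
  rw [← sum_pot, mul_sum]
  refine sum_le_sum fun f _ => ?_
  have h := (wt_pos (show 0 < r ^ 2 by positivity) (ext f) N).le
  unfold pot
  split_ifs
  · rw [mul_comm]
  · rw [mul_one]
    nlinarith

/-- the number of constrained letters is the number of valleys -/
theorem prod_cc_le_wt {k n : ℕ} (hk : 1 ≤ k) (f : Fin (2 * n) → Fin 2) (hp : Path n (bA f)) :
    ((∏ j ∈ range n, cc n k (bA f) j : ℕ) : ℝ) ≤
      (k : ℝ) ^ n * wt (((k : ℝ) - 1) / k) (ext f) (2 * n) := by
  classical
  have hkR : (0 : ℝ) < k := by exact_mod_cast hk
  set θ : ℝ := ((k : ℝ) - 1) / k with hθ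
  have hθ0 : 0 ≤ θ := by
    apply div_nonneg _ hkR.le
    have : (1 : ℝ) ≤ k := by exact_mod_cast hk
    linarith
  have hθ1 : θ ≤ 1 := by
    rw [hθ, div_le_one hkR]
    linarith
  -- weight as a power
  have hwt : ∀ N, wt θ (ext f) N = θ ^ ((range N).filter fun t => t + 1 < N ∧ bA f t = false ∧
      bA f (t + 1) = true).card := by
    intro N
    induction N with
    | zero => simp [wt]
    | succ N ih =>
      have hiff : ∀ t, bA f t = false ↔ ext f t = 0 := by
        intro t
        unfold bA
        rw [decide_eq_false_iff_not]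
        generalize ext f t = z
        revert z; decide
      have hiff1 : ∀ t, bA f t = true ↔ ext f t = 1 := by
        intro t
        unfold bA
        rw [decide_eq_true_iff]
      rw [wt, ih]
      by_cases h : 1 ≤ N ∧ ext f (N - 1) = 0 ∧ ext f N = 1
      · rw [if_pos h, ← pow_succ]
        congr 1
        have hset : (range (N + 1)).filter (fun t => t + 1 < N + 1 ∧ bA f t = false ∧
            bA f (t + 1) = true) = insert (N - 1) ((range N).filter fun t => t + 1 < N ∧
              bA f t = false ∧ bA f (t + 1) = true) := by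
          ext t
          simp only [mem_filter, mem_range, mem_insert]
          constructor
          · rintro ⟨_, g2, g3, g4⟩
            by_cases ht : t = N - 1
            · exact Or.inl ht
            · exact Or.inr ⟨by omega, by omega, g3, g4⟩
          · rintro (rfl | ⟨g1, g2, g3, g4⟩)
            · refine ⟨by omega, by omega, (hiff _).2 h.2.1, ?_⟩
              rw [Nat.sub_add_cancel h.1]
              exact (hiff1 _).2 h.2.2
            · exact ⟨by omega, by omega, g3, g4⟩
        rw [hset, card_insert_of_notMem]
        rw [mem_filter]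
        omega
      · rw [if_neg h, mul_one]
        congr 2
        ext t
        simp only [mem_filter, mem_range]
        constructor
        · rintro ⟨g1, g2, g3, g4⟩
          exact ⟨by omega, by omega, g3, g4⟩
        · rintro ⟨g1, g2, g3, g4⟩
          have : t + 1 ≠ N := by
            intro ht
            apply h
            have e : N - 1 = t := by omega
            refine ⟨by omega, ?_, ?_⟩
            · rw [e]; exact (hiff _).1 g3
            · rw [← ht]; exact (hiff1 _).1 g4
          exact ⟨by omega, by omega, g3, g4⟩
  rw [hwt]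
  unfold cc
  rw [prod_ite, prod_const, prod_const]
  set c := ((range n).filter fun j => ∃ i, Con n (bA f) j i).card with hc
  set v := ((range (2 * n)).filter fun t => t + 1 < 2 * n ∧ bA f t = false ∧
      bA f (t + 1) = true).card with hv
  have hvc : v ≤ c := by
    refine card_le_card_of_injOn (fun t => cE (bA f) (t + 1)) ?_ ?_
    · intro t ht
      rw [mem_coe, mem_filter] at ht
      have hcon : Con n (bA f) (cE (bA f) (t + 1)) (cM (bA f) t) :=
        ⟨t, ht.2.1, ht.2.2.1, ht.2.2.2, rfl, rfl⟩
      rw [mem_coe, mem_filter]
      exact ⟨mem_range.2 (hcon.lt_n hp), _, hcon⟩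
    · intro t ht t' ht' h
      rw [mem_coe, mem_filter] at ht ht'
      have := enq_unique ht.2.2.2 ht'.2.2.2 h
      omega
  have hcn : c ≤ n := by
    have := card_filter_le (range n) (fun j => ∃ i, Con n (bA f) j i)
    rw [card_range] at this
    exact this
  have h2 : ((range n).filter fun j => ¬ ∃ i, Con n (bA f) j i).card = n - c := by
    have := card_filter_add_card_filter_not (s := range n) (fun j => ∃ i, Con n (bA f) j i)
    rw [card_range] at this
    omega
  rw [h2]
  push_cast [Nat.cast_sub hk]
  have e1 : (k : ℝ) ^ n = k ^ c * k ^ (n - c) := by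
    rw [← pow_add]; congr 1; omega
  have e2 : (k : ℝ) ^ c * θ ^ c = (k - 1) ^ c := by
    rw [← mul_pow, hθ]
    congr 1
    field_simp
  calc ((k : ℝ) - 1) ^ c * k ^ (n - c) = k ^ c * k ^ (n - c) * θ ^ c := by rw [← e2]; ring
    _ = k ^ n * θ ^ c := by rw [e1]
    _ ≤ k ^ n * θ ^ v := by
        apply mul_le_mul_of_nonneg_left _ (by positivity)
        exact pow_le_pow_of_le_one hθ0 hθ1 hvc

/-- **Upper bound.** -/
theorem upper_count {k n : ℕ} (hk : 2 ≤ k) :
    (numSS k n : ℝ) ≤ 2 * (4 * k - 2) ^ n := by
  classical
  have : NeZero k := ⟨by omega⟩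
  have hkR : (2 : ℝ) ≤ k := by exact_mod_cast hk
  set θ : ℝ := ((k : ℝ) - 1) / k with hθ
  have hθ2 : 1 / 2 ≤ θ := by
    rw [hθ, div_le_div_iff₀ (by norm_num) (by linarith)]
    linarith
  have hθ1 : θ ≤ 1 := by
    rw [hθ, div_le_one (by linarith)]
    linarith
  set r := Real.sqrt θ with hr
  have hr2 : r ^ 2 = θ := Real.sq_sqrt (by linarith)
  have hr0 : 0 < r := Real.sqrt_pos.2 (by linarith)
  have hr1 : r ≤ 1 := by
    rw [hr, Real.sqrt_le_one]
    exact hθ1
  have hrh : 1 / 2 ≤ r := by
    apply Real.le_sqrt_of_sq_le
    linarith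
  have h1 : (numSS k n : ℝ) ≤ ∑ f : Fin (2 * n) → Fin 2, (k : ℝ) ^ n * wt θ (ext f) (2 * n) := by
    have h2 := numSS_le (k := k) (n := n)
    calc (numSS k n : ℝ) ≤ ((∑ f : Fin (2 * n) → Fin 2,
          (if Path n (bA f) then ∏ j ∈ range n, cc n k (bA f) j else 0) : ℕ) : ℝ) := by
          exact_mod_cast h2
      _ = ∑ f : Fin (2 * n) → Fin 2,
          (((if Path n (bA f) then ∏ j ∈ range n, cc n k (bA f) j else 0) : ℕ) : ℝ) := by
          push_cast
          rfl
      _ ≤ _ := by
          refine sum_le_sum fun f _ => ?_
          split_ifs with h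
          · exact prod_cc_le_wt (by omega) f h
          · rw [Nat.cast_zero]
            exact mul_nonneg (by positivity) (wt_pos (by linarith) _ _).le
  rw [← mul_sum] at h1
  have h3 := sum_wt hr0 hr1 (2 * n)
  rw [hr2] at h3
  have h4 : ∑ f : Fin (2 * n) → Fin 2, wt θ (ext f) (2 * n) ≤ 2 * (1 + r) ^ (2 * n) := by
    have hpos : 0 ≤ ∑ f : Fin (2 * n) → Fin 2, wt θ (ext f) (2 * n) :=
      sum_nonneg fun f _ => (wt_pos (by linarith) _ _).le
    nlinarith
  have h5 : (k : ℝ) * (1 + r) ^ 2 ≤ 4 * k - 2 := by
    have e : (k : ℝ) * θ = k - 1 := by rw [hθ]; field_simp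
    have h6 : (k : ℝ) * r ≤ k - 1 / 2 := by
      have h7 : ((k : ℝ) * r) ^ 2 ≤ (k - 1 / 2) ^ 2 := by
        rw [mul_pow, hr2]
        nlinarith
      exact le_of_sq_le_sq h7 (by linarith)
    nlinarith
  calc (numSS k n : ℝ) ≤ (k : ℝ) ^ n * ∑ f : Fin (2 * n) → Fin 2, wt θ (ext f) (2 * n) := h1
    _ ≤ (k : ℝ) ^ n * (2 * (1 + r) ^ (2 * n)) := by
        apply mul_le_mul_of_nonneg_left h4
        positivity
    _ = 2 * ((k : ℝ) * (1 + r) ^ 2) ^ n := by rw [mul_pow, pow_mul]; ring
    _ ≤ 2 * (4 * k - 2) ^ n := by
        apply mul_le_mul_of_nonneg_left _ (by norm_num)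
        exact pow_le_pow_left₀ (by positivity) h5 n

end Pool.Agent.Q290.SSq
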