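import Mathlib
import Pool.Agent.Q290.SSq.Upper

set_option autoImplicit false

open Finset Filter Topology

namespace Pool.Agent.Q290.SSq

theorem numSS_pos {k : ℕ} (hk : 1 ≤ k) (n : ℕ) : 1 ≤ numSS k n := by
  have key : ∀ m, (ShuffleSquares k m).Nonempty → 1 ≤ numSS k m := fun m h => by
    unfold numSS
    exact (Set.ncard_pos (finite_SS k m)).2 h
  have h0 : 1 ≤ numSS k 0 := key 0 ⟨[], rfl, [], rfl, rfl⟩
  have h1 : 1 ≤ numSS k 1 := by
    refine key 1 ⟨[⟨0, hk⟩, ⟨0, hk⟩], rfl, [true, false], rfl, ?_⟩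
    simp [pick]
  induction n with
  | zero => exact h0
  | succ n ih =>
    calc 1 = 1 * 1 := rfl
      _ ≤ numSS k n * numSS k 1 := Nat.mul_le_mul ih h1
      _ ≤ _ := numSS_mul k n 1

theorem numSS_one_le (n : ℕ) : numSS 1 n ≤ 1 := by
  unfold numSS
  rw [Set.ncard_le_one (finite_SS 1 n)]
  intro a ha b hb
  apply List.ext_getElem (by rw [ha.1, hb.1])
  intro i h1 h2
  exact Subsingleton.elim _ _

theorem log_le {k : ℕ} (hk : 1 ≤ k) : ∃ C : ℝ, 0 ≤ C ∧ ∀ n : ℕ, Real.log (numSS k n) ≤ C * n := by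
  rcases Nat.lt_or_ge k 2 with h | h
  · have : k = 1 := by omega
    subst this
    refine ⟨0, le_rfl, fun n => ?_⟩
    rw [zero_mul]
    apply Real.log_nonpos (Nat.cast_nonneg _)
    exact_mod_cast numSS_one_le n
  · have hk2 : (2 : ℝ) ≤ k := by exact_mod_cast h
    have e : (1 : ℝ) ≤ 4 * k - 2 := by linarith
    refine ⟨Real.log 2 + Real.log (4 * k - 2) + Real.log (numSS k 0), ?_, fun n => ?_⟩
    · have := Real.log_nonneg e
      have h2 := Real.log_nonneg (show (1 : ℝ) ≤ 2 by norm_num)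
      have h3 := Real.log_nonneg (show (1 : ℝ) ≤ numSS k 0 by exact_mod_cast numSS_pos hk 0)
      linarith
    · rcases Nat.eq_zero_or_pos n with hn | hn
      · subst hn
        have h0 : numSS k 0 ≤ 1 := by
          unfold numSS
          rw [Set.ncard_le_one (finite_SS k 0)]
          intro a ha b hb
          rw [List.length_eq_zero_iff.1 ha.1, List.length_eq_zero_iff.1 hb.1]
        have : Real.log (numSS k 0) ≤ 0 :=
          Real.log_nonpos (Nat.cast_nonneg _) (by exact_mod_cast h0)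
        simpa using this
      · have hp : (0 : ℝ) < numSS k n := by exact_mod_cast numSS_pos hk n
        have h1 := Real.log_le_log hp (upper_count (n := n) h)
        rw [Real.log_mul (by norm_num) (by positivity), Real.log_pow] at h1
        have hn1 : (1 : ℝ) ≤ n := by exact_mod_cast hn
        have h2 := Real.log_nonneg (show (1 : ℝ) ≤ 2 by norm_num)
        have h3 := Real.log_nonneg (show (1 : ℝ) ≤ numSS k 0 by exact_mod_cast numSS_pos hk 0)
        nlinarith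

/-- minus the logarithm of the number of shuffle squares -/
noncomputable def u (k n : ℕ) : ℝ := -Real.log (numSS k n)

theorem u_sub {k : ℕ} (hk : 1 ≤ k) : Subadditive (u k) := by
  intro m n
  unfold u
  have h1 : (0 : ℝ) < numSS k m := by exact_mod_cast numSS_pos hk m
  have h2 : (0 : ℝ) < numSS k n := by exact_mod_cast numSS_pos hk n
  have h3 := Real.log_le_log (by positivity)
    (show (numSS k m : ℝ) * numSS k n ≤ numSS k (m + n) by exact_mod_cast numSS_mul k m n)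
  rw [Real.log_mul h1.ne' h2.ne'] at h3
  linarith

theorem u_bdd {k : ℕ} (hk : 1 ≤ k) : BddBelow (Set.range fun n : ℕ => u k n / n) := by
  obtain ⟨C, hC, h⟩ := log_le hk
  refine ⟨-C, ?_⟩
  rintro _ ⟨n, rfl⟩
  simp only
  rcases Nat.eq_zero_or_pos n with hn | hn
  · subst hn; simpa using hC
  · have hn1 : (0 : ℝ) < n := by exact_mod_cast hn
    rw [le_div_iff₀ hn1]
    unfold u
    have := h n
    linarith

/-- the exponential growth rate -/
noncomputable def LL (k : ℕ) : ℝ :=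
  open Classical in if h : 1 ≤ k then Real.exp (-(u_sub h).lim) else 0

theorem tendsto_LL {k : ℕ} (hk : 1 ≤ k) :
    Tendsto (fun n : ℕ => (numSS k n : ℝ) ^ (1 / (n : ℝ))) atTop (𝓝 (LL k)) := by
  unfold LL
  rw [dif_pos hk]
  have h1 := (u_sub hk).tendsto_lim (u_bdd hk)
  have h2 := (Real.continuous_exp.tendsto _).comp h1.neg
  refine h2.congr fun n => ?_
  have hp : (0 : ℝ) < numSS k n := by exact_mod_cast numSS_pos hk n
  rw [Function.comp, Real.rpow_def_of_pos hp]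
  congr 1
  unfold u
  ring

theorem LL_pos {k : ℕ} (hk : 1 ≤ k) : 0 < LL k := by
  unfold LL
  rw [dif_pos hk]
  exact Real.exp_pos _

theorem LL_le {k : ℕ} (hk : 2 ≤ k) : LL k ≤ 4 * k - 2 := by
  have hk2 : (2 : ℝ) ≤ k := by exact_mod_cast hk
  have h1 := tendsto_LL (show 1 ≤ k by omega)
  have h3 : Tendsto (fun n : ℕ => (2 : ℝ) ^ (1 / (n : ℝ)) * (4 * k - 2)) atTop
      (𝓝 (2 ^ (0 : ℝ) * (4 * k - 2))) := by
    apply Tendsto.mul_const
    exact (Real.continuous_const_rpow (by norm_num : (2 : ℝ) ≠ 0)).continuousAt.tendsto.comp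
      tendsto_one_div_atTop_nhds_zero_nat
  rw [Real.rpow_zero, one_mul] at h3
  refine le_of_tendsto_of_tendsto h1 h3 ?_
  filter_upwards [eventually_gt_atTop 0] with n hn
  have hn0 : (n : ℝ) ≠ 0 := by exact_mod_cast hn.ne'
  calc (numSS k n : ℝ) ^ (1 / (n : ℝ)) ≤ (2 * (4 * k - 2) ^ n) ^ (1 / (n : ℝ)) := by
        apply Real.rpow_le_rpow (Nat.cast_nonneg _) (upper_count hk)
        positivity
    _ = 2 ^ (1 / (n : ℝ)) * (4 * k - 2) := by
        rw [Real.mul_rpow (by norm_num) (pow_nonneg (by linarith) _), ← Real.rpow_natCast,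
          ← Real.rpow_mul (by linarith), mul_one_div_cancel hn0, Real.rpow_one]

theorem numSS_le_pow {k n : ℕ} (hk : 1 ≤ k) (hn : n ≠ 0) : (numSS k n : ℝ) ≤ LL k ^ n := by
  have h := (u_sub hk).lim_le_div (u_bdd hk) hn
  have hp : (0 : ℝ) < numSS k n := by exact_mod_cast numSS_pos hk n
  have hn1 : (0 : ℝ) < n := by exact_mod_cast Nat.pos_of_ne_zero hn
  unfold LL
  rw [dif_pos hk, ← Real.exp_nat_mul]
  rw [le_div_iff₀ hn1] at h
  have hu : u k n = -Real.log (numSS k n) := rfl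
  rw [hu] at h
  rw [← Real.log_le_iff_le_exp hp]
  linarith

theorem fam_ge {n R : ℕ} (hn : 1 ≤ n) (hR : R ≤ 2 * n) (hB : 8 * n * (n + 1) * (2 * n + 1) ≤ 2 ^ R) :
    4 ^ n ≤ 8 * n * (n + 1) * (fam n R).card := by
  have h1 := Nat.four_pow_le_two_mul_self_mul_centralBinom n hn
  have h2 := succ_mul_catalan_eq_centralBinom n
  have h3 : catalan n ≤ 2 * (fam n R).card + 2 * ((2 * n + 1) * 2 ^ (2 * n - R)) := catalan_le_fam hn
  have h4 : 2 ^ (2 * n - R) * 2 ^ R = 4 ^ n := by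
    rw [← pow_add, Nat.sub_add_cancel hR, pow_mul]
    norm_num
  rw [← h2] at h1
  -- 2 * (2n+1) * 2^(2n-R) * (4n(n+1)) ≤ 2^(2n-R) * 2^R = 4^n
  have h5 : 2 * ((2 * n + 1) * 2 ^ (2 * n - R)) * (4 * n * (n + 1)) ≤ 4 ^ n := by
    rw [← h4]
    calc 2 * ((2 * n + 1) * 2 ^ (2 * n - R)) * (4 * n * (n + 1))
        = 2 ^ (2 * n - R) * (8 * n * (n + 1) * (2 * n + 1)) := by ring
      _ ≤ _ := Nat.mul_le_mul_left _ hB
  have h6 : 4 ^ n ≤ 2 * n * ((n + 1) * catalan n) := h1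
  have h7 : catalan n * (4 * n * (n + 1)) ≤
      (2 * (fam n R).card + 2 * ((2 * n + 1) * 2 ^ (2 * n - R))) * (4 * n * (n + 1)) :=
    Nat.mul_le_mul_right _ h3
  nlinarith

/-- the lower bound on `LL k ^ (2 n)` -/
theorem LL_ge {k n R r : ℕ} (hk : 2 ≤ k) (hn : 1 ≤ n) (hR : 1 ≤ R) (hR2 : R ≤ 2 * n)
    (hB : 8 * n * (n + 1) * (2 * n + 1) ≤ 2 ^ R) (hr : 4 * R * R ≤ r)
    (hsmall : 4 * n * (4 * r + 2) ^ 4 ≤ (k - 1) * (k - 1)) :
    ((4 * k - 2) ^ 2 - 4 : ℝ) ^ n ≤ (16 * n * (n + 1)) ^ 2 * (LL k ^ n) ^ 2 := by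
  have h1 := lower_count hk hR hr hsmall
  have h2 := fam_ge hn hR2 hB
  have h3 := numSS_le_pow (show 1 ≤ k by omega) (show n ≠ 0 by omega)
  set m := (n - 1) / 2 with hm
  have hk1 : (1 : ℝ) ≤ k - 1 := by
    have : (2 : ℝ) ≤ k := by exact_mod_cast hk
    linarith
  have h4 : (4 : ℝ) ^ n * ((k - 1) ^ m * k ^ (n - m)) ≤ 16 * n * (n + 1) * LL k ^ n := by
    have h5 : (4 ^ n * ((k - 1) ^ m * k ^ (n - m)) : ℕ) ≤ 16 * n * (n + 1) * numSS k n := by
      calc 4 ^ n * ((k - 1) ^ m * k ^ (n - m))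
          ≤ (8 * n * (n + 1) * (fam n R).card) * ((k - 1) ^ m * k ^ (n - m)) :=
            Nat.mul_le_mul_right _ h2
        _ = 8 * n * (n + 1) * ((fam n R).card * ((k - 1) ^ m * k ^ (n - m))) := by ring
        _ ≤ 8 * n * (n + 1) * (2 * numSS k n) := Nat.mul_le_mul_left _ h1
        _ = _ := by ring
    have h6 : (((4 ^ n * ((k - 1) ^ m * k ^ (n - m)) : ℕ)) : ℝ) ≤
        ((16 * n * (n + 1) * numSS k n : ℕ) : ℝ) := by exact_mod_cast h5
    push_cast [Nat.cast_sub (show 1 ≤ k by omega)] at h6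
    refine h6.trans ?_
    apply mul_le_mul_of_nonneg_left h3
    positivity
  have h7 : ((k : ℝ) * (k - 1)) ^ n ≤ ((k - 1) ^ m * k ^ (n - m)) ^ 2 := by
    have e1 : n - m = m + (n - 2 * m) := by omega
    have e2 : n = 2 * m + (n - 2 * m) := by omega
    rw [e1]
    set c := n - 2 * m with hc
    have hlhs : ((k : ℝ) * (k - 1)) ^ n = ((k : ℝ) * (k - 1)) ^ (2 * m) * ((k : ℝ) * (k - 1)) ^ c := by
      rw [← pow_add]; congr 1
    rw [hlhs]
    calc ((k : ℝ) * (k - 1)) ^ (2 * m) * ((k : ℝ) * (k - 1)) ^ c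
        ≤ ((k : ℝ) * (k - 1)) ^ (2 * m) * ((k : ℝ) * k) ^ c := by
          apply mul_le_mul_of_nonneg_left
          · apply pow_le_pow_left₀
            · nlinarith
            · nlinarith
          · exact pow_nonneg (by nlinarith) _
      _ = ((k - 1) ^ m * (k : ℝ) ^ (m + c)) ^ 2 := by
          rw [mul_pow (k : ℝ) (k - 1) (2 * m)]
          ring
  have h8 : ((4 * k - 2) ^ 2 - 4 : ℝ) ^ n = (4 ^ n) ^ 2 * ((k : ℝ) * (k - 1)) ^ n := by
    rw [← pow_mul, mul_comm n 2, pow_mul, ← mul_pow]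
    congr 1
    ring
  rw [h8, ← mul_pow]
  calc ((4 : ℝ) ^ n) ^ 2 * ((k : ℝ) * (k - 1)) ^ n
      ≤ ((4 : ℝ) ^ n) ^ 2 * (((k : ℝ) - 1) ^ m * (k : ℝ) ^ (n - m)) ^ 2 := by
        apply mul_le_mul_of_nonneg_left h7
        positivity
    _ = ((4 : ℝ) ^ n * (((k : ℝ) - 1) ^ m * (k : ℝ) ^ (n - m))) ^ 2 := by ring
    _ ≤ _ := by
        apply pow_le_pow_left₀ _ h4
        positivity

theorem tendsto_natLog : Tendsto (fun k : ℕ => Nat.log 2 k) atTop atTop := by
  rw [tendsto_atTop]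
  intro b
  filter_upwards [eventually_ge_atTop (2 ^ b)] with k hk
  have h0 : k ≠ 0 := by
    have := Nat.pos_of_ne_zero (pow_ne_zero b (two_ne_zero (α := ℕ)))
    omega
  exact (Nat.le_log_iff_pow_le (by norm_num) h0).2 hk

theorem ev_small (D : ℕ) : ∀ᶠ k : ℕ in atTop, D * (Nat.log 2 k + 2) ^ 16 ≤ k := by
  have h1 : (fun m : ℕ => (m : ℝ) ^ 16) =o[atTop] fun m => (2 : ℝ) ^ m :=
    isLittleO_pow_const_const_pow_of_one_lt 16 (by norm_num)
  have h2 : ∀ᶠ m : ℕ in atTop, 4 * D * m ^ 16 ≤ 2 ^ m := by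
    have h3 := h1.bound (show (0 : ℝ) < 1 / (4 * D + 1) by positivity)
    filter_upwards [h3] with m hm
    rw [Real.norm_of_nonneg (by positivity), Real.norm_of_nonneg (by positivity)] at hm
    have h4 : ((4 * D * m ^ 16 : ℕ) : ℝ) ≤ ((2 ^ m : ℕ) : ℝ) := by
      push_cast
      have h5 : (4 * D + 1 : ℝ) * (m : ℝ) ^ 16 ≤ 2 ^ m := by
        rw [one_div, ← div_eq_inv_mul, le_div_iff₀ (by positivity)] at hm
        linarith
      have h6 : (0 : ℝ) ≤ (m : ℝ) ^ 16 := by positivity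
      linarith
    exact_mod_cast h4
  have h3 := ((tendsto_add_atTop_nat 2).comp tendsto_natLog).eventually h2
  filter_upwards [h3, eventually_ge_atTop 1] with k hk hk1
  have h4 : 2 ^ Nat.log 2 k ≤ k := Nat.pow_log_le_self 2 (by omega)
  have hk' : 4 * D * (Nat.log 2 k + 2) ^ 16 ≤ 2 ^ (Nat.log 2 k + 2) := hk
  rw [pow_add] at hk'
  nlinarith

theorem params {k : ℕ} (hk : 2 ≤ k)
    (hD : (16 * 578 ^ 4) * (16 * 578 ^ 4) * (Nat.log 2 k + 2) ^ 16 ≤ k) :
    ∃ n w : ℕ, n = k * w ∧ (Nat.log 2 k + 2) ^ 2 ≤ w ∧ 1 ≤ n ∧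
      16 * n * (n + 1) ≤ 2 ^ (9 * (Nat.log 2 k + 2)) ∧
      ((4 * k - 2) ^ 2 - 4 : ℝ) ^ n ≤ (16 * n * (n + 1)) ^ 2 * (LL k ^ n) ^ 2 := by
  have hklt : k < 2 ^ (Nat.log 2 k + 1) := Nat.lt_pow_succ_log_self (by norm_num) k
  obtain ⟨l, hl⟩ : ∃ l, l = Nat.log 2 k + 2 := ⟨_, rfl⟩
  rw [← hl] at hD ⊢
  have hl2 : 2 ≤ l := by omega
  obtain ⟨w, hw⟩ : ∃ w, w = Nat.sqrt k := ⟨_, rfl⟩
  have hwk : w * w ≤ k := hw ▸ Nat.sqrt_le k
  have hw1 : 16 * 578 ^ 4 * l ^ 8 ≤ w := by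
    rw [hw, Nat.le_sqrt]
    calc 16 * 578 ^ 4 * l ^ 8 * (16 * 578 ^ 4 * l ^ 8)
        = 16 * 578 ^ 4 * (16 * 578 ^ 4) * l ^ 16 := by ring
      _ ≤ k := hD
  have hl8 : l ^ 2 ≤ l ^ 8 := Nat.pow_le_pow_right (by omega) (by norm_num)
  have hll : l ≤ l ^ 2 := by nlinarith
  have hw2 : l ^ 2 ≤ w := by
    refine le_trans ?_ hw1
    calc l ^ 2 ≤ l ^ 8 := hl8
      _ = 1 * l ^ 8 := (one_mul _).symm
      _ ≤ _ := Nat.mul_le_mul_right _ (by norm_num)
  have hw3 : 1 ≤ w := by omega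
  have hwk2 : w ≤ k := by nlinarith
  obtain ⟨n, hn⟩ : ∃ n, n = k * w := ⟨_, rfl⟩
  have hnk : n ≤ k * k := hn ▸ Nat.mul_le_mul_left _ hwk2
  have hn1 : 1 ≤ n := hn ▸ Nat.mul_pos (by omega) hw3
  have hk4 : 4 ≤ k * k := by nlinarith
  have c1 : 6 * l ≤ 2 * n := by
    have : l * l ≤ w := by rw [← sq]; exact hw2
    have h3 : 3 * l ≤ k * w := by
      calc 3 * l ≤ 4 * l := by omega
        _ = 2 * (2 * l) := by ring
        _ ≤ k * (l * l) := by gcongr
        _ ≤ k * w := by gcongr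
    omega
  have c2 : 8 * n * (n + 1) * (2 * n + 1) ≤ 2 ^ (6 * l) := by
    have e : 2 ^ (6 * l) = 64 * (2 ^ (Nat.log 2 k + 1)) ^ 6 := by
      rw [← pow_mul, show (64 : ℕ) = 2 ^ 6 by norm_num, ← pow_add]
      congr 1
      omega
    rw [e]
    calc 8 * n * (n + 1) * (2 * n + 1)
        ≤ 8 * (k * k) * (k * k + 1) * (2 * (k * k) + 1) := by gcongr
      _ ≤ 8 * (k * k) * (k * k + k * k) * (2 * (k * k) + 2 * (k * k)) := by
          gcongr <;> omega
      _ = 64 * k ^ 6 := by ring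
      _ ≤ _ := by gcongr
  have c3 : 4 * n * (4 * (4 * (6 * l) * (6 * l)) + 2) ^ 4 ≤ (k - 1) * (k - 1) := by
    have e1 : 4 * (4 * (6 * l) * (6 * l)) + 2 ≤ 578 * l ^ 2 := by nlinarith
    calc 4 * n * (4 * (4 * (6 * l) * (6 * l)) + 2) ^ 4
        ≤ 4 * n * (578 * l ^ 2) ^ 4 := by gcongr
      _ = (k * w) * (4 * 578 ^ 4 * l ^ 8) := by rw [hn]; ring
      _ ≤ (k - 1) * (k - 1) := by
          obtain ⟨q, rfl⟩ : ∃ q, k = q + 1 := ⟨k - 1, by omega⟩
          rw [Nat.add_sub_cancel]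
          have hq : 1 ≤ q := by omega
          have f1 : 4 * ((q + 1) * w * (4 * 578 ^ 4 * l ^ 8)) ≤ (q + 1) * (q + 1) := by
            calc 4 * ((q + 1) * w * (4 * 578 ^ 4 * l ^ 8))
                = (q + 1) * (w * (16 * 578 ^ 4 * l ^ 8)) := by ring
              _ ≤ (q + 1) * (w * w) := by gcongr
              _ ≤ _ := Nat.mul_le_mul_left _ hwk
          have f2 : (q + 1) * (q + 1) ≤ 4 * (q * q) := by nlinarith
          omega
  refine ⟨n, w, hn, hw2, hn1, ?_, LL_ge (k := k) (n := n) (R := 6 * l)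
    (r := 4 * (6 * l) * (6 * l)) hk hn1 (by omega) c1 c2 le_rfl c3⟩
  calc 16 * n * (n + 1) ≤ 16 * (k * k) * (k * k + k * k) := by
        gcongr
        omega
    _ = 32 * k ^ 4 := by ring
    _ ≤ 2 ^ 5 * (2 ^ l) ^ 4 := by
        have : k ≤ 2 ^ l := hklt.le.trans (Nat.pow_le_pow_right (by norm_num) (by omega))
        have h4 : k ^ 4 ≤ (2 ^ l) ^ 4 := Nat.pow_le_pow_left this 4
        omega
    _ = 2 ^ (5 + l * 4) := by rw [← pow_mul, pow_add]
    _ ≤ _ := Nat.pow_le_pow_right (by norm_num) (by omega)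

/-- eventually, the quantitative lower bound -/
theorem ev_lower : ∀ᶠ k : ℕ in atTop,
    4 * (k : ℝ) - 2 - LL k ≤ 4 / (4 * k - 2) + 36 / ((Nat.log 2 k + 2 : ℕ) : ℝ) := by
  filter_upwards [ev_small ((16 * 578 ^ 4) * (16 * 578 ^ 4)), eventually_ge_atTop 2] with k hD hk
  obtain ⟨n, w, hn, hw2, hn1, hP2, key⟩ := params hk hD
  clear hD
  obtain ⟨l, hl⟩ : ∃ l, l = Nat.log 2 k + 2 := ⟨_, rfl⟩
  rw [← hl] at hw2 hP2 ⊢
  have hl2 : 2 ≤ l := by omega
  have hw3 : 1 ≤ w := by nlinarith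
  have hk2 : (2 : ℝ) ≤ k := by exact_mod_cast hk
  have hL := LL_pos (show 1 ≤ k by omega)
  have hn0 : (0 : ℝ) < n := by exact_mod_cast hn1
  set s : ℝ := 4 * k - 2 with hs
  have hs6 : 6 ≤ s := by rw [hs]; linarith
  have hP : (0 : ℝ) < 16 * n * (n + 1) := by positivity
  have hlog := Real.log_le_log (pow_pos (by nlinarith : 0 < s ^ 2 - 4) n) key
  rw [Real.log_pow, Real.log_mul (by positivity) (by positivity), Real.log_pow, Real.log_pow,
    Real.log_pow] at hlog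
  push_cast at hlog
  set lp := Real.log (16 * n * (n + 1)) with hlp
  -- log L ≥ log (s² - 4) / 2 - lp / n
  have h1 : Real.log (s ^ 2 - 4) / 2 - lp / n ≤ Real.log (LL k) := by
    have : (Real.log (s ^ 2 - 4) / 2 - lp / n) * n ≤ Real.log (LL k) * n := by
      have e : (Real.log (s ^ 2 - 4) / 2 - lp / n) * n = (n * Real.log (s ^ 2 - 4) - 2 * lp) / 2 := by
        field_simp
      rw [e]
      linarith
    exact le_of_mul_le_mul_right this hn0
  have h2 : Real.sqrt (s ^ 2 - 4) * Real.exp (-(lp / n)) ≤ LL k := by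
    rw [← Real.exp_log hL]
    calc Real.sqrt (s ^ 2 - 4) * Real.exp (-(lp / n))
        = Real.exp (Real.log (s ^ 2 - 4) / 2 - lp / n) := by
          rw [sub_eq_add_neg (Real.log (s ^ 2 - 4) / 2), Real.exp_add,
            ← Real.log_sqrt (by nlinarith), Real.exp_log (Real.sqrt_pos.2 (by nlinarith))]
      _ ≤ _ := Real.exp_le_exp.2 h1
  have h3 : s - 4 / s ≤ Real.sqrt (s ^ 2 - 4) := by
    apply Real.le_sqrt_of_sq_le
    have e : (s - 4 / s) ^ 2 = s ^ 2 - 8 + 16 / s ^ 2 := by field_simp; ring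
    rw [e]
    have : 16 / s ^ 2 ≤ 1 := by
      rw [div_le_one (by positivity)]
      nlinarith
    linarith
  have h4 : Real.sqrt (s ^ 2 - 4) ≤ s := by
    rw [Real.sqrt_le_left (by linarith)]
    linarith
  have h5 : 1 - lp / n ≤ Real.exp (-(lp / n)) := by
    have := Real.add_one_le_exp (-(lp / n))
    linarith
  have hlp0 : 0 ≤ lp := by
    apply Real.log_nonneg
    have : (1 : ℝ) ≤ n := by exact_mod_cast hn1
    nlinarith
  have h6 : s - 4 / s - s * (lp / n) ≤ LL k := by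
    have g1 : 0 ≤ Real.sqrt (s ^ 2 - 4) := Real.sqrt_nonneg _
    have g2 : Real.sqrt (s ^ 2 - 4) * (1 - lp / n) ≤ Real.sqrt (s ^ 2 - 4) * Real.exp (-(lp / n)) :=
      mul_le_mul_of_nonneg_left h5 g1
    have g3 : Real.sqrt (s ^ 2 - 4) * (lp / n) ≤ s * (lp / n) :=
      mul_le_mul_of_nonneg_right h4 (by positivity)
    nlinarith
  -- bound on `lp`
  have h7 : lp ≤ 9 * l := by
    have e1 : (16 * n * (n + 1) : ℝ) ≤ 2 ^ (9 * l) := by exact_mod_cast hP2
    have e3 := Real.log_le_log hP e1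
    rw [Real.log_pow] at e3
    push_cast at e3
    have e4 : Real.log 2 ≤ 1 := by
      have := Real.log_two_lt_d9
      linarith
    have e5 : (0 : ℝ) ≤ l := Nat.cast_nonneg _
    nlinarith
  have h8 : s * (lp / n) ≤ 36 / (l : ℝ) := by
    have e1 : (0 : ℝ) < l := by exact_mod_cast (show 0 < l by omega)
    have e2 : ((l ^ 2 : ℕ) : ℝ) ≤ w := by exact_mod_cast hw2
    push_cast at e2
    have e3 : (n : ℝ) = k * w := by rw [hn]; push_cast; ring
    have ew : (0 : ℝ) < w := by exact_mod_cast hw3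
    have ek : (0 : ℝ) < k := by linarith
    rw [e3, ← mul_div_assoc, div_le_div_iff₀ (mul_pos ek ew) e1]
    have es : s ≤ 4 * k := by rw [hs]; linarith
    calc s * lp * l ≤ (4 * k) * (9 * l) * l := by
          apply mul_le_mul_of_nonneg_right _ e1.le
          exact mul_le_mul es h7 hlp0 (by linarith)
      _ = 36 * (k * l ^ 2) := by ring
      _ ≤ 36 * (k * w) := by
          apply mul_le_mul_of_nonneg_left _ (by norm_num)
          exact mul_le_mul_of_nonneg_left e2 ek.le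
  have h9 : s - LL k ≤ 4 / s + s * (lp / n) := by linarith
  linarith

theorem tendsto_gap : Tendsto (fun k : ℕ => 4 * (k : ℝ) - 2 - LL k) atTop (𝓝 0) := by
  have h1 : Tendsto (fun k : ℕ => 4 / (4 * (k : ℝ) - 2)) atTop (𝓝 0) := by
    apply Tendsto.div_atTop tendsto_const_nhds
    apply tendsto_atTop_add_const_right
    exact tendsto_natCast_atTop_atTop.const_mul_atTop (by norm_num)
  have h2 : Tendsto (fun k : ℕ => 36 / ((Nat.log 2 k + 2 : ℕ) : ℝ)) atTop (𝓝 0) := by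
    apply Tendsto.div_atTop tendsto_const_nhds
    apply tendsto_natCast_atTop_atTop.comp
    exact (tendsto_add_atTop_nat 2).comp tendsto_natLog
  have h3 := h1.add h2
  rw [add_zero] at h3
  refine tendsto_of_tendsto_of_tendsto_of_le_of_le' tendsto_const_nhds h3 ?_ ev_lower
  filter_upwards [eventually_ge_atTop 2] with k hk
  have := LL_le hk
  linarith

end Pool.Agent.Q290.SSq
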